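import Pool.Agent.W541.Assemble

set_option autoImplicit false
set_option linter.unusedSimpArgs false
set_option linter.unusedVariables false

/-!
# The global metric
-/

namespace Pool.Agent.W541

open scoped BigOperators ContDiff

/-- coordinate functions of the product map -/
noncomputable def ph (δ : ℝ) (i : Fin 4) : ℝ → ℝ :=
  if i.val < 2 then fun t => 4 * Real.pi * t else fun t => (δ / 4) * Real.arctan t

theorem ph_contDiff (δ : ℝ) (i : Fin 4) : ContDiff ℝ ∞ (ph δ i) := by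
  unfold ph
  split_ifs
  · fun_prop
  · exact contDiff_const.mul Real.contDiff_arctan

theorem deriv_ph (δ : ℝ) (i : Fin 4) (t : ℝ) :
    deriv (ph δ i) t = if i.val < 2 then 4 * Real.pi else (δ / 4) * (1 / (1 + t ^ 2)) := by
  unfold ph
  split_ifs
  · rw [deriv_const_mul_field]; simp
  · rw [deriv_const_mul_field, Real.deriv_arctan]

theorem deriv_ph_pos {δ : ℝ} (hδ : 0 < δ) (i : Fin 4) (t : ℝ) : 0 < deriv (ph δ i) t := by
  rw [deriv_ph]
  split_ifs
  · have := Real.pi_pos; positivity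
  · positivity

theorem deriv2_ph (δ : ℝ) (i : Fin 4) (hi : i.val < 2) (t : ℝ) : deriv (deriv (ph δ i)) t = 0 := by
  have h : deriv (ph δ i) = fun _ => 4 * Real.pi := by
    funext t; rw [deriv_ph]; simp [hi]
  rw [h]; simp

theorem ph_small {δ : ℝ} (hδ : 0 < δ) (i : Fin 4) (hi : ¬ i.val < 2) (t : ℝ) : |ph δ i t| < δ / 2 := by
  unfold ph
  simp only [hi, if_false]
  rw [abs_mul, abs_of_pos (by linarith : 0 < δ / 4)]
  have h1 : |Real.arctan t| < 2 := by
    rw [abs_lt]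
    have := Real.arctan_lt_pi_div_two t
    have := Real.neg_pi_div_two_lt_arctan t
    have := Real.pi_lt_four
    constructor <;> linarith
  nlinarith

theorem ph_ne {δ : ℝ} (hδ : 0 < δ) (i : Fin 4) (hi : ¬ i.val < 2) {t : ℝ} (ht : t ≠ 0) : ph δ i t ≠ 0 := by
  unfold ph
  simp only [hi, if_false]
  have : Real.arctan t ≠ 0 := by
    rwa [Ne, Real.arctan_eq_zero_iff]
  positivity

theorem ph_zero (δ : ℝ) (i : Fin 4) : ph δ i 0 = 0 := by
  unfold ph
  split_ifs <;> simp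

/-- the global metric -/
noncomputable def gg (e δ : ℝ) : Fin 4 → Fin 4 → (Fin 4 → ℝ) → ℝ := pull (ph δ) (gt e)

theorem gt_contDiff (e : ℝ) (i j : Fin 4) : ContDiff ℝ ∞ (gt e i j) := (Em e i j).contDiff

theorem radius_lt {δ : ℝ} (hδ : 0 < δ) (x : Fin 4 → ℝ) :
    Real.sqrt (Phi (ph δ) x 2 ^ 2 + Phi (ph δ) x 3 ^ 2) < δ := by
  have h2 := ph_small hδ 2 (by simp) (x 2)
  have h3 := ph_small hδ 3 (by simp) (x 3)
  rw [Real.sqrt_lt' hδ]
  have e2 : Phi (ph δ) x 2 = ph δ 2 (x 2) := rfl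
  have e3 : Phi (ph δ) x 3 = ph δ 3 (x 3) := rfl
  rw [e2, e3, ← sq_abs (ph δ 2 (x 2)), ← sq_abs (ph δ 3 (x 3))]
  have a2 := abs_nonneg (ph δ 2 (x 2))
  have a3 := abs_nonneg (ph δ 3 (x 3))
  nlinarith

theorem gg_quad (e δ : ℝ) (x v : Fin 4 → ℝ) :
    ∑ i, ∑ j, gg e δ i j x * v i * v j =
      qm e (io (Phi (ph δ) x)) (fun i => deriv (ph δ i) (x i) * v i) := by
  unfold qm gg pull
  refine Finset.sum_congr rfl fun i _ => Finset.sum_congr rfl fun j _ => ?_
  have : Gm e (io (Phi (ph δ) x)) i j = gt e i j (Phi (ph δ) x) := rfl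
  rw [this]
  ring

theorem det_unit {e : ℝ} {q : Fin 6 → ℝ} (h : ∀ v : Fin 4 → ℝ, v ≠ 0 → 0 < qm e q v) :
    IsUnit (Gm e q).det := by
  rw [isUnit_iff_ne_zero]
  intro h0
  obtain ⟨v, hv, hv0⟩ := Matrix.exists_mulVec_eq_zero_iff.2 h0
  have h1 := h v hv
  have h2 : qm e q v = ∑ i, v i * (Gm e q).mulVec v i := by
    unfold qm
    refine Finset.sum_congr rfl fun i _ => ?_
    simp only [Matrix.mulVec, dotProduct, Finset.mul_sum]
    refine Finset.sum_congr rfl fun j _ => by ring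
  rw [h2, hv0] at h1
  simp at h1

theorem main_exists :
    ∃ e δ : ℝ, 0 < e ∧ 0 < δ ∧
      (∀ x v : Fin 4 → ℝ, v ≠ 0 → 0 < ∑ i, ∑ j, gg e δ i j x * v i * v j) ∧
      (∀ x : Fin 4 → ℝ, x 2 = 0 → x 3 = 0 →
        (∀ i j a : Fin 4, i.val < 2 → j.val < 2 → gam (gg e δ) a i j x = 0) ∧
        riem (gg e δ) 0 1 0 1 x = 0) ∧
      (∀ x : Fin 4 → ℝ, (x 2 ≠ 0 ∨ x 3 ≠ 0) →
        ∀ u v : Fin 4 → ℝ, LinearIndependent ℝ ![u, v] →
          0 < ∑ i, ∑ k, ∑ l, ∑ m, riem (gg e δ) i k l m x * u i * v k * u l * v m) := by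
  obtain ⟨e, he, hE⟩ := exists_e
  obtain ⟨δ1, hδ1, hc⟩ := exists_delta he hE
  obtain ⟨δ2, hδ2, hm⟩ := exists_delta_metric e
  set δ := min δ1 δ2 with hδdef
  have hδ : 0 < δ := lt_min hδ1 hδ2
  have hPD : ∀ x v : Fin 4 → ℝ, v ≠ 0 → 0 < qm e (io (Phi (ph δ) x)) v := by
    intro x v hv
    obtain ⟨y, hy, hio⟩ := polar (Phi (ph δ) x)
    rw [hio]
    apply hm _ _ y v hy hv
    rw [abs_of_nonneg (Real.sqrt_nonneg _)]
    exact lt_of_lt_of_le (radius_lt hδ x) (min_le_right _ _)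
  have hdet : ∀ x : Fin 4 → ℝ, IsUnit (Matrix.of fun p q => gt e p q (Phi (ph δ) x)).det := by
    intro x
    exact det_unit (e := e) (q := io (Phi (ph δ) x)) (hPD x)
  have hdne : ∀ (x : Fin 4 → ℝ) (i : Fin 4), deriv (ph δ i) (x i) ≠ 0 := fun x i => (deriv_ph_pos hδ i _).ne'
  have hR : ∀ (x : Fin 4 → ℝ) (i k l m : Fin 4), riem (gg e δ) i k l m x =
      deriv (ph δ i) (x i) * deriv (ph δ k) (x k) * deriv (ph δ l) (x l) * deriv (ph δ m) (x m) *
        riem (gt e) i k l m (Phi (ph δ) x) := by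
    intro x i k l m
    exact riem_pull (ph_contDiff δ) (gt_contDiff e) (gt_symm e) x (hdne x) (hdet x) i k l m
  refine ⟨e, δ, he, hδ, ?_, ?_, ?_⟩
  · intro x v hv
    rw [gg_quad]
    apply hPD
    intro h0
    apply hv
    funext i
    have := congrFun h0 i
    simpa [hdne x i] using this
  · intro x hx2 hx3
    have hio : io (Phi (ph δ) x) = sc 0 (io (Phi (ph δ) x)) := by
      have e2 : Phi (ph δ) x 2 = 0 := by
        show ph δ 2 (x 2) = 0
        rw [hx2, ph_zero]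
      have e3 : Phi (ph δ) x 3 = 0 := by
        show ph δ 3 (x 3) = 0
        rw [hx3, ph_zero]
      unfold sc io
      rw [e2, e3]
      simp
    constructor
    · intro i j a hi hj
      unfold gg
      rw [gam_pull (ph_contDiff δ) (gt_contDiff e) (gt_symm e), deriv2_ph δ i hi, gam_gt, hio, Gt_sc]
      have : w a i j ≠ 0 := by
        unfold w
        simp only [hi, hj, if_true]
        split_ifs <;> norm_num
      rw [zero_pow this]
      ring
    · rw [hR]
      have h := riem_gt e 0 (io (Phi (ph δ) x)) (Phi (ph δ) x) hio 0 0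
      have h' : riem (gt e) 0 1 0 1 (Phi (ph δ) x) = 0 := by
        have : riem (gt e) 0 1 0 1 (Phi (ph δ) x) = 0 ^ (tau 0 0) * Fc e 0 0 0 (io (Phi (ph δ) x)) := h
        rw [this]
        simp [tau]
      rw [h', mul_zero]
  · intro x hx u v huv
    obtain ⟨y, hy, hio⟩ := polar (Phi (ph δ) x)
    set s := Real.sqrt (Phi (ph δ) x 2 ^ 2 + Phi (ph δ) x 3 ^ 2) with hs
    have hs0 : 0 < s := by
      rw [hs]
      apply Real.sqrt_pos.2
      have e2 : Phi (ph δ) x 2 = ph δ 2 (x 2) := rfl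
      have e3 : Phi (ph δ) x 3 = ph δ 3 (x 3) := rfl
      rw [e2, e3]
      rcases hx with h | h
      · have := ph_ne hδ 2 (by simp) h
        positivity
      · have := ph_ne hδ 3 (by simp) h
        positivity
    have hsd : s < δ1 := lt_of_lt_of_le (radius_lt hδ x) (min_le_left _ _)
    have huv' : LinearIndependent ℝ ![fun i => deriv (ph δ i) (x i) * u i, fun i => deriv (ph δ i) (x i) * v i] := by
      rw [LinearIndependent.pair_iff] at huv ⊢
      intro a b hab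
      apply huv a b
      funext i
      have h1 := congrFun hab i
      simp only [Pi.add_apply, Pi.smul_apply, smul_eq_mul, Pi.zero_apply] at h1 ⊢
      have h2 : deriv (ph δ i) (x i) * (a * u i + b * v i) = 0 := by linarith
      exact (mul_eq_zero.1 h2).resolve_left (hdne x i)
    have h := model_pos hc (gt_symm e) s hs0 hsd y hy (Phi (ph δ) x) hio _ _ huv'
    refine lt_of_lt_of_eq h ?_
    refine Finset.sum_congr rfl fun i _ => Finset.sum_congr rfl fun k _ => Finset.sum_congr rfl fun l _ =>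
      Finset.sum_congr rfl fun m _ => ?_
    rw [hR]
    ring

theorem gg_contDiff (e δ : ℝ) (i j : Fin 4) (n : ℕ) : ContDiff ℝ n (gg e δ i j) :=
  (contDiff_infty.1 (pull_contDiff (ph_contDiff δ) (gt_contDiff e) i j)) n

theorem gg_symm (e δ : ℝ) (i j : Fin 4) (x : Fin 4 → ℝ) : gg e δ i j x = gg e δ j i x := by
  unfold gg pull
  rw [gt_symm e i j]
  ring

theorem cos4 (t : ℝ) : Real.cos (t + 2 * (2 * Real.pi)) = Real.cos t := by
  have := Real.cos_add_nat_mul_two_pi t 2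
  push_cast at this
  exact this

theorem sin4 (t : ℝ) : Real.sin (t + 2 * (2 * Real.pi)) = Real.sin t := by
  have := Real.sin_add_nat_mul_two_pi t 2
  push_cast at this
  exact this

theorem io_add0 (δ : ℝ) (x : Fin 4 → ℝ) :
    io (Phi (ph δ) (x + (Pi.single 0 1 : Fin 4 → ℝ))) = io (Phi (ph δ) x) := by
  unfold io Phi ph
  have h1 : 4 * Real.pi * (x 0 + 1) - 4 * Real.pi * x 1 / 2 = (4 * Real.pi * x 0 - 4 * Real.pi * x 1 / 2)
    + 2 * (2 * Real.pi) := by ring
  have h2 : 4 * Real.pi * x 1 - 4 * Real.pi * (x 0 + 1) / 2 = (4 * Real.pi * x 1 - 4 * Real.pi * x 0 / 2)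
    - 2 * Real.pi := by ring
  simp [Pi.single_apply]
  rw [h1, h2, cos4, sin4, Real.cos_sub_two_pi, Real.sin_sub_two_pi]
  simp

theorem io_add1 (δ : ℝ) (x : Fin 4 → ℝ) :
    io (Phi (ph δ) (x + (Pi.single 1 1 : Fin 4 → ℝ))) = io (Phi (ph δ) x) := by
  unfold io Phi ph
  have h1 : 4 * Real.pi * x 0 - 4 * Real.pi * (x 1 + 1) / 2 = (4 * Real.pi * x 0 - 4 * Real.pi * x 1 / 2)
    - 2 * Real.pi := by ring
  have h2 : 4 * Real.pi * (x 1 + 1) - 4 * Real.pi * x 0 / 2 = (4 * Real.pi * x 1 - 4 * Real.pi * x 0 / 2)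
    + 2 * (2 * Real.pi) := by ring
  simp [Pi.single_apply]
  rw [h1, h2, cos4, sin4, Real.cos_sub_two_pi, Real.sin_sub_two_pi]
  simp

theorem dph_add (δ : ℝ) (x : Fin 4 → ℝ) (k i : Fin 4) (hk : k.val < 2) :
    deriv (ph δ i) ((x + (Pi.single k 1 : Fin 4 → ℝ)) i) = deriv (ph δ i) (x i) := by
  rw [deriv_ph, deriv_ph]
  split_ifs with h
  · rfl
  · have : i ≠ k := by rintro rfl; exact h hk
    simp [Pi.single_apply, this]

theorem gg_per (e δ : ℝ) (i j : Fin 4) (x : Fin 4 → ℝ) :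
    gg e δ i j (x + (Pi.single 0 1 : Fin 4 → ℝ)) = gg e δ i j x ∧
    gg e δ i j (x + (Pi.single 1 1 : Fin 4 → ℝ)) = gg e δ i j x := by
  constructor
  · unfold gg pull
    rw [dph_add δ x 0 i (by simp), dph_add δ x 0 j (by simp)]
    have : gt e i j (Phi (ph δ) (x + (Pi.single 0 1 : Fin 4 → ℝ))) = gt e i j (Phi (ph δ) x) := by
      unfold gt Ex.fn; rw [io_add0]
    rw [this]
  · unfold gg pull
    rw [dph_add δ x 1 i (by simp), dph_add δ x 1 j (by simp)]
    have : gt e i j (Phi (ph δ) (x + (Pi.single 1 1 : Fin 4 → ℝ))) = gt e i j (Phi (ph δ) x) := by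
      unfold gt Ex.fn; rw [io_add1]
    rw [this]

end Pool.Agent.W541
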