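import Pool.Agent.W541.Near

set_option autoImplicit false
set_option linter.unusedSimpArgs false
set_option linter.unusedVariables false

/-!
# Assembly
-/

namespace Pool.Agent.W541

open scoped BigOperators ContDiff

/-- bivector of two vectors -/
def biv (u v : Fin 4 → ℝ) (α : Fin 6) : ℝ := u (pr1 α) * v (pr2 α) - u (pr2 α) * v (pr1 α)

theorem asym_sum (X : Fin 4 → Fin 4 → ℝ) (hX : ∀ i k, X i k = - X k i) (u v : Fin 4 → ℝ) :
    ∑ i, ∑ k, X i k * (u i * v k) = ∑ α, X (pr1 α) (pr2 α) * biv u v α := by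
  have h0 : ∀ i, X i i = 0 := fun i => by have := hX i i; linarith
  simp only [Fin.sum_univ_four, Fin.sum_univ_six, biv, pr1, pr2]
  simp [h0]
  rw [hX 1 0, hX 2 0, hX 3 0, hX 2 1, hX 3 1, hX 3 2]
  ring

theorem sec_swap2 (g : Fin 4 → Fin 4 → (Fin 4 → ℝ) → ℝ) (i k l m : Fin 4) (x : Fin 4 → ℝ) :
    sec g i k m l x = - sec g i k l m x := by
  unfold sec; ring

theorem sec_swap1 (g : Fin 4 → Fin 4 → (Fin 4 → ℝ) → ℝ) (i k l m : Fin 4) (x : Fin 4 → ℝ) :
    sec g k i l m x = - sec g i k l m x := by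
  unfold sec; ring

theorem riem_swap2 (g : Fin 4 → Fin 4 → (Fin 4 → ℝ) → ℝ) (i k l m : Fin 4) (x : Fin 4 → ℝ) :
    riem g i k l m x = - riem g i k m l x := by
  unfold riem
  rw [sec_swap2 g i k m l x, neg_add, ← Finset.sum_neg_distrib]
  congr 1
  refine Finset.sum_congr rfl fun a _ => ?_
  rw [← Finset.sum_neg_distrib]
  refine Finset.sum_congr rfl fun b _ => by ring

theorem bil_symm {M : Matrix (Fin 4) (Fin 4) ℝ} (hM : ∀ a b, M a b = M b a) (X Y : Fin 4 → ℝ) :
    bil M X Y = bil M Y X := by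
  unfold bil
  rw [Finset.sum_comm]
  refine Finset.sum_congr rfl fun a _ => Finset.sum_congr rfl fun b _ => by rw [hM b a]; ring

theorem riem_swap1 (g : Fin 4 → Fin 4 → (Fin 4 → ℝ) → ℝ) (hs : ∀ i j, g i j = g j i)
    (i k l m : Fin 4) (x : Fin 4 → ℝ) :
    riem g i k l m x = - riem g k i l m x := by
  rw [riem_bil, riem_bil, sec_swap1 g k i l m x]
  have hM : ∀ a b, (Matrix.of fun p q => g p q x)⁻¹ a b = (Matrix.of fun p q => g p q x)⁻¹ b a := by
    intro a b
    have h1 : (Matrix.of fun p q => g p q x).transpose = (Matrix.of fun p q => g p q x) := by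
      ext p q; simp [hs q p]
    have h2 := Matrix.transpose_nonsing_inv (Matrix.of fun p q => g p q x)
    rw [h1] at h2
    calc (Matrix.of fun p q => g p q x)⁻¹ a b = ((Matrix.of fun p q => g p q x)⁻¹).transpose b a := rfl
      _ = _ := by rw [h2]
  rw [bil_symm hM (fun a => gam g a i l x), bil_symm hM (fun a => gam g a i m x)]
  ring

/-- the curvature form through bivectors -/
theorem riem_biv (g : Fin 4 → Fin 4 → (Fin 4 → ℝ) → ℝ) (hs : ∀ i j, g i j = g j i) (x : Fin 4 → ℝ)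
    (u v : Fin 4 → ℝ) :
    ∑ i, ∑ k, ∑ l, ∑ m, riem g i k l m x * u i * v k * u l * v m =
      ∑ α, ∑ β, riem g (pr1 α) (pr2 α) (pr1 β) (pr2 β) x * (biv u v α * biv u v β) := by
  have h1 : ∀ i k, ∑ l, ∑ m, riem g i k l m x * u i * v k * u l * v m =
      (∑ β, riem g i k (pr1 β) (pr2 β) x * biv u v β) * (u i * v k) := by
    intro i k
    rw [← asym_sum (fun l m => riem g i k l m x) (fun l m => riem_swap2 g i k l m x), Finset.sum_mul]
    refine Finset.sum_congr rfl fun l _ => ?_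
    rw [Finset.sum_mul]
    refine Finset.sum_congr rfl fun m _ => by ring
  simp only [h1]
  rw [asym_sum (fun i k => ∑ β, riem g i k (pr1 β) (pr2 β) x * biv u v β)]
  · refine Finset.sum_congr rfl fun α _ => ?_
    rw [Finset.sum_mul]
    refine Finset.sum_congr rfl fun β _ => by ring
  · intro i k
    rw [← Finset.sum_neg_distrib]
    refine Finset.sum_congr rfl fun β _ => ?_
    rw [riem_swap1 g hs i k]; ring

theorem biv_plucker (u v : Fin 4 → ℝ) :
    biv u v 0 * biv u v 5 = biv u v 1 * biv u v 4 - biv u v 2 * biv u v 3 := by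
  simp [biv, pr1, pr2]
  ring

theorem biv_ne {u v : Fin 4 → ℝ} (h : LinearIndependent ℝ ![u, v]) : biv u v ≠ 0 := by
  intro h0
  have hu : u ≠ 0 := h.ne_zero 0
  obtain ⟨i, hi⟩ := Function.ne_iff.1 hu
  have hi' : u i ≠ 0 := hi
  have hall : ∀ i k, u i * v k = u k * v i := by
    have e0 := congrFun h0 0
    have e1 := congrFun h0 1
    have e2 := congrFun h0 2
    have e3 := congrFun h0 3
    have e4 := congrFun h0 4
    have e5 := congrFun h0 5
    simp [biv, pr1, pr2] at e0 e1 e2 e3 e4 e5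
    intro i k
    fin_cases i <;> fin_cases k <;> simp <;> linarith
  rw [LinearIndependent.pair_iff] at h
  have := h (v i) (- u i) (by
    funext k
    have := hall i k
    simp
    linarith)
  exact hi' (by simpa using this.2)

/-- curvature of the model metric at a point near the torus -/
theorem model_pos {e δ : ℝ}
    (h : ∀ s : ℝ, |s| < δ → ∀ y m : Fin 6 → ℝ, circ y → m ≠ 0 → 0 < Psi e s y m)
    (hs : ∀ i j, gt e i j = gt e j i)
    (s : ℝ) (hs0 : 0 < s) (hsd : s < δ) (y : Fin 6 → ℝ) (hy : circ y) (x : Fin 4 → ℝ) (hx : io x = sc s y)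
    (u v : Fin 4 → ℝ) (huv : LinearIndependent ℝ ![u, v]) :
    0 < ∑ i, ∑ k, ∑ l, ∑ m, riem (gt e) i k l m x * u i * v k * u l * v m := by
  rw [riem_biv (gt e) hs]
  set P := biv u v with hP
  have hPl : P 0 * P 5 = P 1 * P 4 - P 2 * P 3 := biv_plucker u v
  have hP0 : P ≠ 0 := biv_ne huv
  have h1 := h s (by rw [abs_of_pos hs0]; exact hsd) y ![s * P 0, P 1, P 2, P 3, P 4, P 5] hy (by
    intro h0
    apply hP0
    have hs' := hs0.ne'
    funext i
    have h1 := congrFun h0 i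
    fin_cases i <;> simpa [hs'] using h1)
  unfold Psi at h1
  refine lt_of_lt_of_eq h1 ?_
  refine Finset.sum_congr rfl fun α _ => Finset.sum_congr rfl fun β _ => ?_
  rw [plucker s P hPl, riem_gt e s y x hx]
  ring

theorem gt_symm (e : ℝ) (i j : Fin 4) : gt e i j = gt e j i := by
  unfold gt
  congr 1
  fin_cases i <;> fin_cases j <;> rfl

/-- polar decomposition of a point of coordinate space -/
theorem polar (x : Fin 4 → ℝ) : ∃ y : Fin 6 → ℝ, circ y ∧ io x = sc (Real.sqrt (x 2 ^ 2 + x 3 ^ 2)) y := by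
  set s := Real.sqrt (x 2 ^ 2 + x 3 ^ 2) with hs
  have hs2 : s ^ 2 = x 2 ^ 2 + x 3 ^ 2 := Real.sq_sqrt (by positivity)
  by_cases h : s = 0
  · refine ⟨![Real.cos (x 0 - x 1 / 2), Real.sin (x 0 - x 1 / 2), Real.cos (x 1 - x 0 / 2),
      Real.sin (x 1 - x 0 / 2), 1, 0], ⟨?_, ?_, ?_⟩, ?_⟩
    · simpa using Real.cos_sq_add_sin_sq _
    · simpa using Real.cos_sq_add_sin_sq _
    · simp
    · rw [h] at hs2 ⊢
      have h2 : x 2 = 0 := by nlinarith [sq_nonneg (x 2), sq_nonneg (x 3)]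
      have h3 : x 3 = 0 := by nlinarith [sq_nonneg (x 2), sq_nonneg (x 3)]
      simp [io, sc, h2, h3]
  · refine ⟨![Real.cos (x 0 - x 1 / 2), Real.sin (x 0 - x 1 / 2), Real.cos (x 1 - x 0 / 2),
      Real.sin (x 1 - x 0 / 2), x 2 / s, x 3 / s], ⟨?_, ?_, ?_⟩, ?_⟩
    · simpa using Real.cos_sq_add_sin_sq _
    · simpa using Real.cos_sq_add_sin_sq _
    · simp
      field_simp
      linarith
    · simp [io, sc]
      constructor <;> field_simp

end Pool.Agent.W541
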