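import Pool.Agent.W541.Lim

set_option autoImplicit false
set_option linter.unusedSimpArgs false
set_option linter.unusedVariables false

/-!
# Blow-up of the curvature near the torus
-/

namespace Pool.Agent.W541

open scoped BigOperators ContDiff Topology

/-- scaling of the normal coordinates -/
noncomputable def sc (s : ℝ) (y : Fin 6 → ℝ) : Fin 6 → ℝ := ![y 0, y 1, y 2, y 3, s * y 4, s * y 5]

/-- homogeneity degrees of the Christoffel symbols -/
def w (p k l : Fin 4) : ℕ :=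
  if k.val < 2 then
    (if l.val < 2 then (if p.val < 2 then 2 else 1) else (if p.val < 2 then 1 else 0))
  else
    (if l.val < 2 then (if p.val < 2 then 1 else 0) else (if p.val < 2 then 0 else 1))

/-- index pairs -/
def pr1 : Fin 6 → Fin 4 := ![0, 0, 0, 1, 1, 2]
def pr2 : Fin 6 → Fin 4 := ![1, 2, 3, 2, 3, 3]

/-- homogeneity degree of the curvature -/
def tau (α β : Fin 6) : ℕ :=
  if α = 0 then (if β = 0 then 2 else if β = 5 then 0 else 1)
  else if β = 0 then (if α = 5 then 0 else 1) else 0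

theorem Gt_sc (e s : ℝ) (p k l : Fin 4) (y : Fin 6 → ℝ) :
    Gt e p k l (sc s y) = s ^ (w p k l) * Gt e p k l y := by
  fin_cases p <;> fin_cases k <;> fin_cases l <;>
    (simp [Gt, w, sc, g000, g001, g002, g003, g011, g012, g013, g100, g101, g102, g103, g111, g112, g113,
      g200, g201, g203, g211, g213, g223, g233, g300, g301, g302, g311, g312, g322, g323]; try ring)

theorem St_sc (e s : ℝ) (α β : Fin 6) (y : Fin 6 → ℝ) :
    St e (pr1 α) (pr2 α) (pr1 β) (pr2 β) (sc s y) = s ^ (tau α β) * St e (pr1 α) (pr2 α) (pr1 β) (pr2 β) y := by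
  fin_cases α <;> fin_cases β <;>
    (simp [St, pr1, pr2, tau, sc, s0101, s0102, s0103, s0112, s0113, s0123,
      s0201, s0202, s0203, s0212, s0213, s0301, s0302, s0303, s0312, s0313,
      s1201, s1202, s1203, s1212, s1213, s1301, s1302, s1303, s1312, s1313, s2301, s2323]; try ring)

theorem Sp_eq (e : ℝ) (α β : Fin 6) (q : Fin 6 → ℝ) :
    Sp e (pr1 α) (pr2 α) (pr1 β) (pr2 β) q = St e (pr1 α) (pr2 α) (pr1 β) (pr2 β) q := by
  fin_cases α <;> fin_cases β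
  · exact Sp_eq0101 e q
  · exact Sp_eq0102 e q
  · exact Sp_eq0103 e q
  · exact Sp_eq0112 e q
  · exact Sp_eq0113 e q
  · exact Sp_eq0123 e q
  · exact Sp_eq0201 e q
  · exact Sp_eq0202 e q
  · exact Sp_eq0203 e q
  · exact Sp_eq0212 e q
  · exact Sp_eq0213 e q
  · exact Sp_eq0223 e q
  · exact Sp_eq0301 e q
  · exact Sp_eq0302 e q
  · exact Sp_eq0303 e q
  · exact Sp_eq0312 e q
  · exact Sp_eq0313 e q
  · exact Sp_eq0323 e q
  · exact Sp_eq1201 e q
  · exact Sp_eq1202 e q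
  · exact Sp_eq1203 e q
  · exact Sp_eq1212 e q
  · exact Sp_eq1213 e q
  · exact Sp_eq1223 e q
  · exact Sp_eq1301 e q
  · exact Sp_eq1302 e q
  · exact Sp_eq1303 e q
  · exact Sp_eq1312 e q
  · exact Sp_eq1313 e q
  · exact Sp_eq1323 e q
  · exact Sp_eq2301 e q
  · exact Sp_eq2302 e q
  · exact Sp_eq2303 e q
  · exact Sp_eq2312 e q
  · exact Sp_eq2313 e q
  · exact Sp_eq2323 e q

/-- the metric as functions -/
noncomputable def gt (e : ℝ) (i j : Fin 4) : (Fin 4 → ℝ) → ℝ := (Em e i j).fn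

/-- the metric matrix -/
noncomputable def Gm (e : ℝ) (q : Fin 6 → ℝ) : Matrix (Fin 4) (Fin 4) ℝ := Matrix.of fun i j => (Em e i j).ev q

theorem gam_gt (e : ℝ) (p k l : Fin 4) (x : Fin 4 → ℝ) : gam (gt e) p k l x = Gt e p k l (io x) := by
  unfold gam gt
  rw [Ex.pd_fn, Ex.pd_fn, Ex.pd_fn, ← Gp_eq]
  rfl

theorem sec_gt (e : ℝ) (i k l m : Fin 4) (x : Fin 4 → ℝ) : sec (gt e) i k l m x = Sp e i k l m (io x) := by
  unfold sec gt
  have h : ∀ (E : Ex) (k : Fin 4), pd k E.fn = (E.D k).fn := fun E k => funext fun x => Ex.pd_fn E k x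
  simp only [h]
  rfl

/-- blown-up curvature coefficients -/
noncomputable def Fc (e : ℝ) (α β : Fin 6) (s : ℝ) (y : Fin 6 → ℝ) : ℝ :=
  St e (pr1 α) (pr2 α) (pr1 β) (pr2 β) y + ∑ p, ∑ r, (Gm e (sc s y))⁻¹ p r *
    (s ^ (w p (pr2 α) (pr1 β) + w r (pr1 α) (pr2 β) - tau α β) *
        (Gt e p (pr2 α) (pr1 β) y * Gt e r (pr1 α) (pr2 β) y)
      - s ^ (w p (pr2 α) (pr2 β) + w r (pr1 α) (pr1 β) - tau α β) *
        (Gt e p (pr2 α) (pr2 β) y * Gt e r (pr1 α) (pr1 β) y))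

theorem tau_le1 : ∀ (α β : Fin 6) (p r : Fin 4), tau α β ≤ w p (pr2 α) (pr1 β) + w r (pr1 α) (pr2 β) := by
  decide

theorem tau_le2 : ∀ (α β : Fin 6) (p r : Fin 4), tau α β ≤ w p (pr2 α) (pr2 β) + w r (pr1 α) (pr1 β) := by
  decide

theorem riem_gt (e s : ℝ) (y : Fin 6 → ℝ) (x : Fin 4 → ℝ) (hx : io x = sc s y) (α β : Fin 6) :
    riem (gt e) (pr1 α) (pr2 α) (pr1 β) (pr2 β) x = s ^ (tau α β) * Fc e α β s y := by
  unfold riem Fc
  rw [sec_gt, hx, Sp_eq, St_sc]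
  have h1 : (Matrix.of fun p q => gt e p q x) = Gm e (sc s y) := by
    rw [← hx]; rfl
  rw [h1, mul_add]
  congr 1
  rw [Finset.mul_sum]
  refine Finset.sum_congr rfl fun p _ => ?_
  rw [Finset.mul_sum]
  refine Finset.sum_congr rfl fun r _ => ?_
  simp only [gam_gt, hx, Gt_sc]
  have e1 : s ^ (w p (pr2 α) (pr1 β)) * s ^ (w r (pr1 α) (pr2 β)) = s ^ (tau α β) *
      s ^ (w p (pr2 α) (pr1 β) + w r (pr1 α) (pr2 β) - tau α β) := by
    rw [← pow_add, ← pow_add, Nat.add_sub_cancel' (tau_le1 α β p r)]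
  have e2 : s ^ (w p (pr2 α) (pr2 β)) * s ^ (w r (pr1 α) (pr1 β)) = s ^ (tau α β) *
      s ^ (w p (pr2 α) (pr2 β) + w r (pr1 α) (pr1 β) - tau α β) := by
    rw [← pow_add, ← pow_add, Nat.add_sub_cancel' (tau_le2 α β p r)]
  linear_combination ((Gm e (sc s y))⁻¹ p r * (Gt e p (pr2 α) (pr1 β) y * Gt e r (pr1 α) (pr2 β) y)) * e1
    - ((Gm e (sc s y))⁻¹ p r * (Gt e p (pr2 α) (pr2 β) y * Gt e r (pr1 α) (pr1 β) y)) * e2

theorem Gm_zero (e : ℝ) (y : Fin 6 → ℝ) : Gm e (sc 0 y) = 1 := by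
  ext i j
  fin_cases i <;> fin_cases j <;> simp [Gm, Em, Ex.ev, sc]

end Pool.Agent.W541
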