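import Mathlib

set_option autoImplicit false

/-!
# Curvature in coordinates on `Fin 4 → ℝ` and product-type changes of coordinates
-/

namespace Pool.Agent.W541

open scoped BigOperators

/-- coordinate partial derivative -/
noncomputable def pd (k : Fin 4) (f : (Fin 4 → ℝ) → ℝ) (x : Fin 4 → ℝ) : ℝ :=
  fderiv ℝ f x (Pi.single k 1)

/-- Christoffel symbols of the first kind -/
noncomputable def gam (g : Fin 4 → Fin 4 → (Fin 4 → ℝ) → ℝ) (a k l : Fin 4) (x : Fin 4 → ℝ) : ℝ :=
  (pd k (g l a) x + pd l (g k a) x - pd a (g k l) x) / 2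

/-- second-derivative part of the curvature -/
noncomputable def sec (g : Fin 4 → Fin 4 → (Fin 4 → ℝ) → ℝ) (i k l m : Fin 4) (x : Fin 4 → ℝ) : ℝ :=
  (pd l (pd k (g i m)) x + pd m (pd i (g k l)) x - pd m (pd k (g i l)) x - pd l (pd i (g k m)) x) / 2

/-- the bilinear form `Σ M a b X a Y b` -/
noncomputable def bil (M : Matrix (Fin 4) (Fin 4) ℝ) (X Y : Fin 4 → ℝ) : ℝ :=
  ∑ a, ∑ b, M a b * (X a * Y b)

/-- coordinate curvature -/
noncomputable def riem (g : Fin 4 → Fin 4 → (Fin 4 → ℝ) → ℝ) (i k l m : Fin 4) (x : Fin 4 → ℝ) : ℝ :=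
  sec g i k l m x + ∑ a, ∑ b, (Matrix.of fun p q => g p q x)⁻¹ a b *
    (gam g a k l x * gam g b i m x - gam g a k m x * gam g b i l x)

theorem pd_comm {f : (Fin 4 → ℝ) → ℝ} (hf : ContDiff ℝ 2 f) (k l : Fin 4) (x : Fin 4 → ℝ) :
    pd l (pd k f) x = pd k (pd l f) x := by
  have hs : IsSymmSndFDerivAt ℝ f x := by
    apply ContDiffAt.isSymmSndFDerivAt hf.contDiffAt
    simp
  have hd : DifferentiableAt ℝ (fderiv ℝ f) x := by
    have : ContDiff ℝ 1 (fderiv ℝ f) := hf.fderiv_right (by norm_num)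
    exact (this.differentiable (by norm_num)) x
  have key : ∀ k l : Fin 4, pd l (pd k f) x = fderiv ℝ (fderiv ℝ f) x (Pi.single l 1) (Pi.single k 1) := by
    intro k l
    unfold pd
    have : fderiv ℝ (fun y => fderiv ℝ f y (Pi.single k 1)) x
        = (fderiv ℝ (fderiv ℝ f) x).flip (Pi.single k 1) := by
      rw [fderiv_clm_apply hd (differentiableAt_const _)]
      simp
    rw [this]
    rfl
  rw [key, key]
  exact hs _ _

theorem sec_eq {g : Fin 4 → Fin 4 → (Fin 4 → ℝ) → ℝ} (hg : ∀ i j, ContDiff ℝ 2 (g i j))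
    (hsym : ∀ i j, g i j = g j i) (i k l m : Fin 4) (x : Fin 4 → ℝ) :
    sec g i k l m x = pd l (gam g i k m) x - pd m (gam g i k l) x := by
  have hd : ∀ i j k, Differentiable ℝ (pd k (g i j)) := by
    intro i j k
    have h1 : ContDiff ℝ 1 (fderiv ℝ (g i j)) := (hg i j).fderiv_right (by norm_num)
    have : Differentiable ℝ (fderiv ℝ (g i j)) := h1.differentiable (by norm_num)
    intro y
    exact (this y).clm_apply (differentiableAt_const _)
  have key : ∀ l i k m, pd l (gam g i k m) x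
      = (pd l (pd k (g m i)) x + pd l (pd m (g k i)) x - pd l (pd i (g k m)) x) / 2 := by
    intro l i k m
    have h0 : gam g i k m = fun y => (pd k (g m i) y + pd m (g k i) y - pd i (g k m) y) * (1/2) := by
      funext y; unfold gam; ring
    have h1 := (hd m i k) x
    have h2 := (hd k i m) x
    have h3 := (hd k m i) x
    rw [h0]
    unfold pd at *
    rw [fderiv_mul_const ((h1.fun_add h2).fun_sub h3), fderiv_fun_sub (h1.fun_add h2) h3, fderiv_fun_add h1 h2]
    simp
    ring
  rw [key, key]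
  unfold sec
  rw [hsym m i, hsym k i, hsym l i, pd_comm (hg i k) m l]
  ring

end Pool.Agent.W541
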