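import Pool.Agent.W541.PullR

set_option autoImplicit false

/-!
# Reflected trigonometric polynomials

`Ex` is the type of polynomial expressions in six variables, read through
`ι x = (cos G, sin G, cos T, sin T, x₂, x₃)`, `G = x₀ - x₁/2`, `T = x₁ - x₀/2`.
-/

namespace Pool.Agent.W541

open scoped BigOperators ContDiff

inductive Ex : Type
  | c (r : ℝ) : Ex
  | v (i : Fin 6) : Ex
  | add (x y : Ex) : Ex
  | mul (x y : Ex) : Ex

noncomputable def Ex.ev : Ex → (Fin 6 → ℝ) → ℝ
  | .c r, _ => r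
  | .v i, q => q i
  | .add x y, q => x.ev q + y.ev q
  | .mul x y, q => x.ev q * y.ev q

/-- derivative of the basic variables -/
noncomputable def dv (k : Fin 4) (i : Fin 6) : Ex :=
  match k, i with
  | 0, 0 => .mul (.c (-1)) (.v 1)
  | 0, 1 => .v 0
  | 0, 2 => .mul (.c (1/2)) (.v 3)
  | 0, 3 => .mul (.c (-1/2)) (.v 2)
  | 1, 0 => .mul (.c (1/2)) (.v 1)
  | 1, 1 => .mul (.c (-1/2)) (.v 0)
  | 1, 2 => .mul (.c (-1)) (.v 3)
  | 1, 3 => .v 2
  | 2, 4 => .c 1
  | 3, 5 => .c 1
  | _, _ => .c 0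

noncomputable def Ex.D (k : Fin 4) : Ex → Ex
  | .c _ => .c 0
  | .v i => dv k i
  | .add x y => .add (x.D k) (y.D k)
  | .mul x y => .add (.mul (x.D k) y) (.mul x (y.D k))

noncomputable def io (x : Fin 4 → ℝ) : Fin 6 → ℝ :=
  ![Real.cos (x 0 - x 1 / 2), Real.sin (x 0 - x 1 / 2), Real.cos (x 1 - x 0 / 2),
    Real.sin (x 1 - x 0 / 2), x 2, x 3]

/-- the function on coordinate space given by an expression -/
noncomputable def Ex.fn (e : Ex) (x : Fin 4 → ℝ) : ℝ := e.ev (io x)

theorem Ex.contDiff (e : Ex) : ContDiff ℝ ∞ e.fn := by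
  induction e with
  | c r => exact contDiff_const
  | v i =>
    unfold Ex.fn io
    fin_cases i <;> simp [Ex.ev] <;> fun_prop
  | add x y hx hy => exact hx.add hy
  | mul x y hx hy => exact hx.mul hy

theorem Ex.differentiable (e : Ex) : Differentiable ℝ e.fn := e.contDiff.differentiable (by simp)

theorem pd_const (k : Fin 4) (r : ℝ) (x : Fin 4 → ℝ) : pd k (fun _ => r) x = 0 := by
  unfold pd; simp

theorem pd_proj (k i : Fin 4) (x : Fin 4 → ℝ) : pd k (fun y => y i) x = if k = i then 1 else 0 := by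
  have h := pd_coord (h := fun t => t) differentiable_id k i x
  simpa using h

theorem pd_comp {f : (Fin 4 → ℝ) → ℝ} {h : ℝ → ℝ} {x : Fin 4 → ℝ} {h' : ℝ} (hf : DifferentiableAt ℝ f x)
    (hh : HasDerivAt h h' (f x)) (k : Fin 4) : pd k (fun y => h (f y)) x = h' * pd k f x := by
  unfold pd
  have := (hh.comp_hasFDerivAt x hf.hasFDerivAt).fderiv
  have h2 : fderiv ℝ (fun y => h (f y)) x = h' • fderiv ℝ f x := this
  rw [h2]; simp

theorem pd_lin (k : Fin 4) (i j : Fin 4) (r : ℝ) (x : Fin 4 → ℝ) :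
    pd k (fun y => y i - y j / r) x = (if k = i then 1 else 0) - (if k = j then 1 else 0) / r := by
  have h : (fun y : Fin 4 → ℝ => y i - y j / r) = fun y => y i + (-1/r) * y j := by
    funext y; ring
  rw [h, pd_add (differentiableAt_apply i x) (by fun_prop), pd_proj,
    pd_mul (differentiableAt_const _) (differentiableAt_apply j x), pd_const, pd_proj]
  ring

theorem Ex.pd_fn (e : Ex) (k : Fin 4) (x : Fin 4 → ℝ) : pd k e.fn x = (e.D k).fn x := by
  induction e with
  | c r => exact pd_const k r x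
  | v i =>
    fin_cases i
    · have h : (Ex.v 0).fn = fun x => Real.cos (x 0 - x 1 / 2) := by funext x; simp [Ex.fn, Ex.ev, io]
      simp only [Fin.zero_eta]
      rw [h, pd_comp (by fun_prop) (Real.hasDerivAt_cos _), pd_lin]
      fin_cases k <;> simp [Ex.fn, Ex.ev, Ex.D, dv, io] <;> ring
    · have h : (Ex.v 1).fn = fun x => Real.sin (x 0 - x 1 / 2) := by funext x; simp [Ex.fn, Ex.ev, io]
      simp only [Fin.mk_one]
      rw [h, pd_comp (by fun_prop) (Real.hasDerivAt_sin _), pd_lin]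
      fin_cases k <;> simp [Ex.fn, Ex.ev, Ex.D, dv, io] <;> ring
    · have h : (Ex.v 2).fn = fun x => Real.cos (x 1 - x 0 / 2) := by funext x; simp [Ex.fn, Ex.ev, io]
      simp only [Fin.reduceFinMk]
      rw [h, pd_comp (by fun_prop) (Real.hasDerivAt_cos _), pd_lin]
      fin_cases k <;> simp [Ex.fn, Ex.ev, Ex.D, dv, io] <;> ring
    · have h : (Ex.v 3).fn = fun x => Real.sin (x 1 - x 0 / 2) := by funext x; simp [Ex.fn, Ex.ev, io]
      simp only [Fin.reduceFinMk]
      rw [h, pd_comp (by fun_prop) (Real.hasDerivAt_sin _), pd_lin]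
      fin_cases k <;> simp [Ex.fn, Ex.ev, Ex.D, dv, io] <;> ring
    · have h : (Ex.v 4).fn = fun x => x 2 := by funext x; simp [Ex.fn, Ex.ev, io]
      simp only [Fin.reduceFinMk]
      rw [h, pd_proj]
      fin_cases k <;> simp [Ex.fn, Ex.ev, Ex.D, dv, io]
    · have h : (Ex.v 5).fn = fun x => x 3 := by funext x; simp [Ex.fn, Ex.ev, io]
      simp only [Fin.reduceFinMk]
      rw [h, pd_proj]
      fin_cases k <;> simp [Ex.fn, Ex.ev, Ex.D, dv, io]
  | add a b ha hb =>
    have h : (Ex.add a b).fn = fun x => a.fn x + b.fn x := rfl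
    rw [h, pd_add (a.differentiable x) (b.differentiable x), ha, hb]
    rfl
  | mul a b ha hb =>
    have h : (Ex.mul a b).fn = fun x => a.fn x * b.fn x := rfl
    rw [h, pd_mul (a.differentiable x) (b.differentiable x), ha, hb]
    rfl

end Pool.Agent.W541
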