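import Pool.Agent.W541.Zero

set_option autoImplicit false
set_option linter.unusedSimpArgs false
set_option linter.unusedVariables false

/-!
# The blown-up curvature form and its positivity at the torus
-/

namespace Pool.Agent.W541

open scoped BigOperators

/-- monomials of the blown-up form -/
def cf (α β : Fin 6) (m : Fin 6 → ℝ) : ℝ :=
  if (α = 0 ∧ β = 5) ∨ (α = 5 ∧ β = 0) then m 1 * m 4 - m 2 * m 3 else m α * m β

/-- blown-up curvature form -/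
noncomputable def Psi (e s : ℝ) (y m : Fin 6 → ℝ) : ℝ := ∑ α, ∑ β, cf α β m * Fc e α β s y

theorem cf_smul (α β : Fin 6) (t : ℝ) (m : Fin 6 → ℝ) : cf α β (fun i => t * m i) = t ^ 2 * cf α β m := by
  unfold cf
  split_ifs <;> ring

theorem Psi_smul (e s t : ℝ) (y m : Fin 6 → ℝ) : Psi e s y (fun i => t * m i) = t ^ 2 * Psi e s y m := by
  unfold Psi
  simp only [cf_smul, Finset.mul_sum]
  refine Finset.sum_congr rfl fun a _ => Finset.sum_congr rfl fun b _ => by ring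

theorem plucker (s : ℝ) (P : Fin 6 → ℝ) (hP : P 0 * P 5 = P 1 * P 4 - P 2 * P 3) (α β : Fin 6) :
    cf α β ![s * P 0, P 1, P 2, P 3, P 4, P 5] = s ^ (tau α β) * (P α * P β) := by
  fin_cases α <;> fin_cases β <;> simp [cf, tau] <;> first | ring1 | linear_combination (-1 : ℝ) * hP

theorem Psi_zero (e : ℝ) (y m : Fin 6 → ℝ) :
    Psi e 0 y m = psiS e (y 0) (y 1) (y 2) (y 3) (y 4) (y 5) (e * m 0) (m 1) (e * m 2) (e * m 3) (m 4) (m 5) := by
  unfold Psi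
  simp only [Fin.sum_univ_six, Fz00, Fz01, Fz02, Fz03, Fz04, Fz05, Fz10, Fz11, Fz12, Fz13, Fz14, Fz15, Fz20, Fz21, Fz22, Fz23, Fz24, Fz25, Fz30, Fz31, Fz32, Fz33, Fz34, Fz35, Fz40, Fz41, Fz42, Fz43, Fz44, Fz45, Fz50, Fz51, Fz52, Fz53, Fz54, Fz55]
  simp only [cf]
  norm_num [Fin.ext_iff]
  unfold psiS ps0 ps1 ps2 r00 r01 r02 r03 r04 r05 r10 r11 r12 r13 r14 r20 r21 r22 r23 r24 r30 r31 r32 r33 r34 r40 r41 r42 r43 r44 r50 r55
  ring

theorem ps0_eq (a b c d x y p m1 m2 m3 m4 r : ℝ) (h1 : a ^ 2 + b ^ 2 = 1) (h2 : c ^ 2 + d ^ 2 = 1) :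
    ps0 a b c d x y p m1 m2 m3 m4 r =
      (m1 + (1/2) * c * m2 + ((1/2) * d - 2 * b) * (p * y)) ^ 2
      + (m4 + (1/2) * a * m3 + (2 * d - (1/2) * b) * (p * x)) ^ 2
      + (3/8) * (p ^ 2 * (x ^ 2 + y ^ 2) + m2 ^ 2 + m3 ^ 2) + 3 * r ^ 2 := by
  unfold ps0
  linear_combination (3/4) * p ^ 2 * x ^ 2 * h1 + (3/4) * p ^ 2 * y ^ 2 * h2

/-- compact parameter set: `θ`-circles, unit normal direction, unit bivector -/
def KK : Set (Fin 12 → ℝ) := {z | z 0 ^ 2 + z 1 ^ 2 = 1 ∧ z 2 ^ 2 + z 3 ^ 2 = 1 ∧ z 4 ^ 2 + z 5 ^ 2 = 1 ∧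
  z 6 ^ 2 + z 7 ^ 2 + z 8 ^ 2 + z 9 ^ 2 + z 10 ^ 2 + z 11 ^ 2 = 1}

theorem KK_compact : IsCompact KK := by
  apply Metric.isCompact_of_isClosed_isBounded
  · unfold KK
    simp only [Set.setOf_and]
    refine IsClosed.inter ?_ (IsClosed.inter ?_ (IsClosed.inter ?_ ?_)) <;>
      exact isClosed_eq (by fun_prop) continuous_const
  · refine (Metric.isBounded_closedBall (x := (0 : Fin 12 → ℝ)) (r := 1)).subset ?_
    rintro z ⟨h1, h2, h3, h4⟩
    rw [mem_closedBall_zero_iff, pi_norm_le_iff_of_nonneg zero_le_one]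
    intro i
    rw [Real.norm_eq_abs, abs_le_one_iff_mul_self_le_one]
    fin_cases i <;> simp <;> nlinarith [sq_nonneg (z 0), sq_nonneg (z 1), sq_nonneg (z 2), sq_nonneg (z 3),
      sq_nonneg (z 4), sq_nonneg (z 5), sq_nonneg (z 6), sq_nonneg (z 7), sq_nonneg (z 8), sq_nonneg (z 9),
      sq_nonneg (z 10), sq_nonneg (z 11)]

/-- compactness principle -/
theorem pos_near {n : ℕ} {K : Set (Fin n → ℝ)} (hK : IsCompact K) (f : ℝ → (Fin n → ℝ) → ℝ)
    (hc : ∀ y ∈ K, ContinuousAt (fun z : ℝ × (Fin n → ℝ) => f z.1 z.2) (0, y))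
    (h0 : ∀ y ∈ K, 0 < f 0 y) : ∃ δ : ℝ, 0 < δ ∧ ∀ s : ℝ, |s| < δ → ∀ y ∈ K, 0 < f s y := by
  have h : ∀ᶠ s in nhds (0 : ℝ), ∀ y ∈ K, 0 < f s y := by
    apply hK.eventually_forall_of_forall_eventually
    intro y hy
    exact (hc y hy).eventually (lt_mem_nhds (h0 y hy))
  obtain ⟨δ, hδ, h⟩ := Metric.eventually_nhds_iff.1 h
  exact ⟨δ, hδ, fun s hs => h (by simpa [Real.dist_eq] using hs)⟩

theorem exists_e : ∃ e : ℝ, 0 < e ∧ ∀ z ∈ KK,
    0 < psiS e (z 0) (z 1) (z 2) (z 3) (z 4) (z 5) (z 6) (z 7) (z 8) (z 9) (z 10) (z 11) := by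
  obtain ⟨δ, hδ, h⟩ := pos_near KK_compact
    (fun e z => psiS e (z 0) (z 1) (z 2) (z 3) (z 4) (z 5) (z 6) (z 7) (z 8) (z 9) (z 10) (z 11))
    (by
      intro y _
      apply Continuous.continuousAt
      unfold psiS ps0 ps1 ps2
      fun_prop)
    (by
      rintro z ⟨h1, h2, h3, h4⟩
      have : psiS 0 (z 0) (z 1) (z 2) (z 3) (z 4) (z 5) (z 6) (z 7) (z 8) (z 9) (z 10) (z 11) =
        ps0 (z 0) (z 1) (z 2) (z 3) (z 4) (z 5) (z 6) (z 7) (z 8) (z 9) (z 10) (z 11) := by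
        unfold psiS; ring
      rw [this, ps0_eq _ _ _ _ _ _ _ _ _ _ _ _ h1 h2, h3]
      by_contra hneg
      push Not at hneg
      have a1 := sq_nonneg (z 7 + (1/2) * z 2 * z 8 + ((1/2) * z 3 - 2 * z 1) * (z 6 * z 5))
      have a2 := sq_nonneg (z 10 + (1/2) * z 0 * z 9 + (2 * z 3 - (1/2) * z 1) * (z 6 * z 4))
      have b1 := sq_nonneg (z 6)
      have b2 := sq_nonneg (z 8)
      have b3 := sq_nonneg (z 9)
      have b4 := sq_nonneg (z 11)
      have c1 : z 6 = 0 := by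
        have : z 6 ^ 2 = 0 := by linarith
        exact pow_eq_zero_iff (by norm_num) |>.1 this
      have c2 : z 8 = 0 := by
        have : z 8 ^ 2 = 0 := by linarith
        exact pow_eq_zero_iff (by norm_num) |>.1 this
      have c3 : z 9 = 0 := by
        have : z 9 ^ 2 = 0 := by linarith
        exact pow_eq_zero_iff (by norm_num) |>.1 this
      have c4 : z 11 = 0 := by
        have : z 11 ^ 2 = 0 := by linarith
        exact pow_eq_zero_iff (by norm_num) |>.1 this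
      rw [c1, c2, c3, c4] at hneg h4
      have d1 : z 7 ^ 2 + z 10 ^ 2 ≤ 0 := by
        have e1 : z 7 + (1/2) * z 2 * 0 + ((1/2) * z 3 - 2 * z 1) * (0 * z 5) = z 7 := by ring
        have e2 : z 10 + (1/2) * z 0 * 0 + (2 * z 3 - (1/2) * z 1) * (0 * z 4) = z 10 := by ring
        rw [e1, e2] at hneg
        linarith
      nlinarith)
  exact ⟨δ / 2, by linarith, h _ (by rw [abs_of_pos (by linarith)]; linarith)⟩

end Pool.Agent.W541
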