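import Pool.Agent.W541.Met

set_option autoImplicit false
set_option linter.unusedSimpArgs false
set_option linter.unusedVariables false

/-!
# Explicit values at the torus
-/

namespace Pool.Agent.W541

noncomputable def r00 (e a b c d x y : ℝ) : ℝ :=
  (145/64) * a ^ 4 * e ^ 4 * x ^ 2 - (11/3) * a ^ 3 * c * e ^ 4 * x ^ 2 + (5/2) * a ^ 3 * e ^ 3 * x * y - (25/32) * a ^ 2 * b ^ 2 * e ^ 4 * x ^ 2 + (53/6) * a ^ 2 * b * d * e ^ 4 * x ^ 2 - (3/8) * a ^ 2 * c ^ 2 * e ^ 4 * x ^ 2 - (3/8) * a ^ 2 * c ^ 2 * e ^ 4 * y ^ 2 - (149/12) * a ^ 2 * c * e ^ 3 * x * y + (5/8) * a ^ 2 * d ^ 2 * e ^ 4 * x ^ 2 + (3/2) * a ^ 2 * d ^ 2 * e ^ 4 * y ^ 2 - (15/8) * a ^ 2 * e ^ 4 * x ^ 2 - (9/16) * a ^ 2 * e ^ 4 * y ^ 2 + (3/4) * a ^ 2 * e ^ 2 * x ^ 2 + (44/3) * a * b ^ 2 * c * e ^ 4 * x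 ^ 2 - (5/2) * a * b ^ 2 * e ^ 3 * x * y + (52/3) * a * b * d * e ^ 3 * x * y - (11/3) * a * c ^ 3 * e ^ 4 * y ^ 2 - (149/12) * a * c ^ 2 * e ^ 3 * x * y + (44/3) * a * c * d ^ 2 * e ^ 4 * y ^ 2 - (11/2) * a * c * e ^ 4 * x ^ 2 - (11/2) * a * c * e ^ 4 * y ^ 2 - (5/4) * a * d ^ 2 * e ^ 3 * x * y - (95/64) * b ^ 4 * e ^ 4 * x ^ 2 - (77/6) * b ^ 3 * d * e ^ 4 * x ^ 2 + (3/2) * b ^ 2 * c ^ 2 * e ^ 4 * x ^ 2 + (5/8) * b ^ 2 * c ^ 2 * e ^ 4 * y ^ 2 - (5/4) * b ^ 2 * c * e ^ 3 * x * y + (3/2) * b ^ 2 * d ^ 2 * e ^ 4 * x ^ 2 + (3/2) * b ^ 2 * d ^ 2 * e ^ 4 * y ^ 2 + (15/8) * b ^ 2 * e ^ 4 * x ^ 2 + (15/16) * b ^ 2 * e ^ 4 * y ^ 2 + b ^ 2 * e ^ 2 * x ^ 2 + 4 * b ^ 2 * e ^ 2 * y ^ 2 + (53/6) * b * c ^ 2 * d * e ^ 4 * y ^ 2 + (52/3) * b * c * d * e ^ 3 * x * y - (77/6) * b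 * d ^ 3 * e ^ 4 * y ^ 2 + 2 * b * d * e ^ 4 * x ^ 2 + 2 * b * d * e ^ 4 * y ^ 2 - 2 * b * d * e ^ 2 * x ^ 2 - 2 * b * d * e ^ 2 * y ^ 2 + (145/64) * c ^ 4 * e ^ 4 * y ^ 2 + (5/2) * c ^ 3 * e ^ 3 * x * y - (25/32) * c ^ 2 * d ^ 2 * e ^ 4 * y ^ 2 - (9/16) * c ^ 2 * e ^ 4 * x ^ 2 - (15/8) * c ^ 2 * e ^ 4 * y ^ 2 + (3/4) * c ^ 2 * e ^ 2 * y ^ 2 - (5/2) * c * d ^ 2 * e ^ 3 * x * y - (95/64) * d ^ 4 * e ^ 4 * y ^ 2 + (15/16) * d ^ 2 * e ^ 4 * x ^ 2 + (15/8) * d ^ 2 * e ^ 4 * y ^ 2 + 4 * d ^ 2 * e ^ 2 * x ^ 2 + d ^ 2 * e ^ 2 * y ^ 2 - (3/8) * e ^ 2 * x ^ 2 - (3/8) * e ^ 2 * y ^ 2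

noncomputable def r01 (e a b c d x y : ℝ) : ℝ :=
  (5/2) * a * b * e ^ 2 * x - 9 * a * d * e ^ 2 * x - (1/4) * b * c ^ 2 * e ^ 3 * y + 3 * b * d ^ 2 * e ^ 3 * y - (3/8) * b * e ^ 3 * y - 2 * b * e * y + (15/8) * c ^ 2 * d * e ^ 3 * y - 6 * c * d * e ^ 2 * x - (15/8) * d ^ 3 * e ^ 3 * y + (1/2) * d * e * y

noncomputable def r02 (e a b c d x y : ℝ) : ℝ :=
  5 * a ^ 2 * b * e ^ 3 * x - (15/8) * a ^ 2 * d * e ^ 3 * x + (44/3) * a * b * c * e ^ 3 * x - 5 * b ^ 3 * e ^ 3 * x - (83/24) * b ^ 2 * d * e ^ 3 * x + (3/2) * b * c ^ 2 * e ^ 3 * x - b * c * e ^ 2 * y - (9/2) * b * d ^ 2 * e ^ 3 * x + (1/4) * c * d * e ^ 2 * y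

noncomputable def r03 (e a b c d x y : ℝ) : ℝ :=
  -((3/2) * a ^ 2 * d * e ^ 3 * y) - (1/4) * a * b * e ^ 2 * x - (44/3) * a * c * d * e ^ 3 * y + a * d * e ^ 2 * x + (9/2) * b ^ 2 * d * e ^ 3 * y + (15/8) * b * c ^ 2 * e ^ 3 * y + (83/24) * b * d ^ 2 * e ^ 3 * y - 5 * c ^ 2 * d * e ^ 3 * y + 5 * d ^ 3 * e ^ 3 * y

noncomputable def r04 (e a b c d x y : ℝ) : ℝ :=
  -((15/8) * a ^ 2 * b * e ^ 3 * x) + (1/4) * a ^ 2 * d * e ^ 3 * x + 6 * a * b * e ^ 2 * y + (15/8) * b ^ 3 * e ^ 3 * x - 3 * b ^ 2 * d * e ^ 3 * x + 9 * b * c * e ^ 2 * y - (1/2) * b * e * x - (5/2) * c * d * e ^ 2 * y + (3/8) * d * e ^ 3 * x + 2 * d * e * x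

noncomputable def r05 (e a b c d x y : ℝ) : ℝ :=
  -(a * e) - c * e

noncomputable def r10 (e a b c d x y : ℝ) : ℝ :=
  (5/2) * a * b * e ^ 2 * x - 9 * a * d * e ^ 2 * x - (1/4) * b * c ^ 2 * e ^ 3 * y + 3 * b * d ^ 2 * e ^ 3 * y - (3/8) * b * e ^ 3 * y - 2 * b * e * y + (15/8) * c ^ 2 * d * e ^ 3 * y - 6 * c * d * e ^ 2 * x - (15/8) * d ^ 3 * e ^ 3 * y + (1/2) * d * e * y

noncomputable def r11 (e a b c d x y : ℝ) : ℝ :=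
  5 * a ^ 2 * e ^ 2 + (44/3) * a * c * e ^ 2 - 5 * b ^ 2 * e ^ 2 - (16/3) * b * d * e ^ 2 + (3/2) * c ^ 2 * e ^ 2 - (3/2) * d ^ 2 * e ^ 2 + 1

noncomputable def r12 (e a b c d x y : ℝ) : ℝ :=
  (1/2) * c * e

noncomputable def r13 (e a b c d x y : ℝ) : ℝ :=
  -((15/8) * a ^ 2 * e ^ 2) + (15/8) * b ^ 2 * e ^ 2 - 3 * b * d * e ^ 2

noncomputable def r14 (e a b c d x y : ℝ) : ℝ :=
  -(2 * a * e) - 2 * c * e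

noncomputable def r20 (e a b c d x y : ℝ) : ℝ :=
  5 * a ^ 2 * b * e ^ 3 * x - (15/8) * a ^ 2 * d * e ^ 3 * x + (44/3) * a * b * c * e ^ 3 * x - 5 * b ^ 3 * e ^ 3 * x - (83/24) * b ^ 2 * d * e ^ 3 * x + (3/2) * b * c ^ 2 * e ^ 3 * x - b * c * e ^ 2 * y - (9/2) * b * d ^ 2 * e ^ 3 * x + (1/4) * c * d * e ^ 2 * y

noncomputable def r21 (e a b c d x y : ℝ) : ℝ :=
  (1/2) * c * e

noncomputable def r22 (e a b c d x y : ℝ) : ℝ :=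
  (1/4) * c ^ 2 * e ^ 2 + (3/8) * e ^ 2

noncomputable def r23 (e a b c d x y : ℝ) : ℝ :=
  -(a * e) - c * e

noncomputable def r24 (e a b c d x y : ℝ) : ℝ :=
  -(3 * b * d * e ^ 2) - (15/8) * c ^ 2 * e ^ 2 + (15/8) * d ^ 2 * e ^ 2

noncomputable def r30 (e a b c d x y : ℝ) : ℝ :=
  -((3/2) * a ^ 2 * d * e ^ 3 * y) - (1/4) * a * b * e ^ 2 * x - (44/3) * a * c * d * e ^ 3 * y + a * d * e ^ 2 * x + (9/2) * b ^ 2 * d * e ^ 3 * y + (15/8) * b * c ^ 2 * e ^ 3 * y + (83/24) * b * d ^ 2 * e ^ 3 * y - 5 * c ^ 2 * d * e ^ 3 * y + 5 * d ^ 3 * e ^ 3 * y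

noncomputable def r31 (e a b c d x y : ℝ) : ℝ :=
  -((15/8) * a ^ 2 * e ^ 2) + (15/8) * b ^ 2 * e ^ 2 - 3 * b * d * e ^ 2

noncomputable def r32 (e a b c d x y : ℝ) : ℝ :=
  -(a * e) - c * e

noncomputable def r33 (e a b c d x y : ℝ) : ℝ :=
  (1/4) * a ^ 2 * e ^ 2 + (3/8) * e ^ 2

noncomputable def r34 (e a b c d x y : ℝ) : ℝ :=
  (1/2) * a * e

noncomputable def r40 (e a b c d x y : ℝ) : ℝ :=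
  -((15/8) * a ^ 2 * b * e ^ 3 * x) + (1/4) * a ^ 2 * d * e ^ 3 * x + 6 * a * b * e ^ 2 * y + (15/8) * b ^ 3 * e ^ 3 * x - 3 * b ^ 2 * d * e ^ 3 * x + 9 * b * c * e ^ 2 * y - (1/2) * b * e * x - (5/2) * c * d * e ^ 2 * y + (3/8) * d * e ^ 3 * x + 2 * d * e * x

noncomputable def r41 (e a b c d x y : ℝ) : ℝ :=
  -(2 * a * e) - 2 * c * e

noncomputable def r42 (e a b c d x y : ℝ) : ℝ :=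
  -(3 * b * d * e ^ 2) - (15/8) * c ^ 2 * e ^ 2 + (15/8) * d ^ 2 * e ^ 2

noncomputable def r43 (e a b c d x y : ℝ) : ℝ :=
  (1/2) * a * e

noncomputable def r44 (e a b c d x y : ℝ) : ℝ :=
  (3/2) * a ^ 2 * e ^ 2 + (44/3) * a * c * e ^ 2 - (3/2) * b ^ 2 * e ^ 2 - (16/3) * b * d * e ^ 2 + 5 * c ^ 2 * e ^ 2 - 5 * d ^ 2 * e ^ 2 + 1

noncomputable def r50 (e a b c d x y : ℝ) : ℝ :=
  -(a * e) - c * e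

noncomputable def r55 (e a b c d x y : ℝ) : ℝ :=
  3

noncomputable def ps0 (a b c d x y p m1 m2 m3 m4 r : ℝ) : ℝ :=
  (3/4) * a ^ 2 * p ^ 2 * x ^ 2 + (1/4) * a ^ 2 * m3 ^ 2 - (1/2) * a * b * p * m3 * x + 2 * a * d * p * m3 * x + a * m3 * m4 + b ^ 2 * p ^ 2 * x ^ 2 + 4 * b ^ 2 * p ^ 2 * y ^ 2 - 2 * b * c * p * m2 * y - 2 * b * d * p ^ 2 * x ^ 2 - 2 * b * d * p ^ 2 * y ^ 2 - 4 * b * p * m1 * y - b * p * m4 * x + (3/4) * c ^ 2 * p ^ 2 * y ^ 2 + (1/4) * c ^ 2 * m2 ^ 2 + (1/2) * c * d * p * m2 * y + c * m1 * m2 + 4 * d ^ 2 * p ^ 2 * x ^ 2 + d ^ 2 * p ^ 2 * y ^ 2 + d * p * m1 * y + 4 * d * p * m4 * x - (3/8) * p ^ 2 * x ^ 2 - (3/8) * p ^ 2 * y ^ 2 + m1 ^ 2 + (3/8) * m2 ^ 2 + (3/8) * m3 ^ 2 + m4 ^ 2 + 3 * r ^ 2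

noncomputable def ps1 (a b c d x y p m1 m2 m3 m4 r : ℝ) : ℝ :=
  (5/2) * a ^ 3 * p ^ 2 * x * y + 10 * a ^ 2 * b * p * m2 * x - (149/12) * a ^ 2 * c * p ^ 2 * x * y - (15/4) * a ^ 2 * d * p * m2 * x - 3 * a ^ 2 * d * p * m3 * y - (15/4) * a ^ 2 * m1 * m3 - (5/2) * a * b ^ 2 * p ^ 2 * x * y + (88/3) * a * b * c * p * m2 * x + (52/3) * a * b * d * p ^ 2 * x * y + 5 * a * b * p * m1 * x + 12 * a * b * p * m4 * y - (149/12) * a * c ^ 2 * p ^ 2 * x * y - (88/3) * a * c * d * p * m3 * y - (5/4) * a * d ^ 2 * p ^ 2 * x * y - 18 * a * d * p * m1 * x - 6 * a * m1 * m4 - 10 * b ^ 3 * p * m2 * x - (5/4) * b ^ 2 * c * p ^ 2 * x * y - (83/12) * b ^ 2 * d * p * m2 * x + 9 * b ^ 2 * d * p * m3 * y + (15/4) * b ^ 2 * m1 * m3 + 3 * b * c ^ 2 * p * m2 * x + (15/4) * b * c ^ 2 * p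 * m3 * y + (52/3) * b * c * d * p ^ 2 * x * y + 18 * b * c * p * m4 * y - 9 * b * d ^ 2 * p * m2 * x + (83/12) * b * d ^ 2 * p * m3 * y - 6 * b * d * m1 * m3 - 6 * b * d * m2 * m4 + (5/2) * c ^ 3 * p ^ 2 * x * y - 10 * c ^ 2 * d * p * m3 * y - (15/4) * c ^ 2 * m2 * m4 - (5/2) * c * d ^ 2 * p ^ 2 * x * y - 12 * c * d * p * m1 * x - 5 * c * d * p * m4 * y - 6 * c * m1 * m4 + 10 * d ^ 3 * p * m3 * y + (15/4) * d ^ 2 * m2 * m4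

noncomputable def ps2 (a b c d x y p m1 m2 m3 m4 r : ℝ) : ℝ :=
  (145/64) * a ^ 4 * p ^ 2 * x ^ 2 - (11/3) * a ^ 3 * c * p ^ 2 * x ^ 2 - (25/32) * a ^ 2 * b ^ 2 * p ^ 2 * x ^ 2 + (53/6) * a ^ 2 * b * d * p ^ 2 * x ^ 2 - (15/4) * a ^ 2 * b * p * m4 * x - (3/8) * a ^ 2 * c ^ 2 * p ^ 2 * x ^ 2 - (3/8) * a ^ 2 * c ^ 2 * p ^ 2 * y ^ 2 + (5/8) * a ^ 2 * d ^ 2 * p ^ 2 * x ^ 2 + (3/2) * a ^ 2 * d ^ 2 * p ^ 2 * y ^ 2 + (1/2) * a ^ 2 * d * p * m4 * x - (15/8) * a ^ 2 * p ^ 2 * x ^ 2 - (9/16) * a ^ 2 * p ^ 2 * y ^ 2 + 5 * a ^ 2 * m1 ^ 2 + (3/2) * a ^ 2 * m4 ^ 2 + (44/3) * a * b ^ 2 * c * p ^ 2 * x ^ 2 - (11/3) * a * c ^ 3 * p ^ 2 * y ^ 2 + (44/3) * a * c * d ^ 2 * p ^ 2 * y ^ 2 - (11/2) * a * c * p ^ 2 * x ^ 2 - (11/2) * a * c * p ^ 2 * y ^ 2 + (44/3) * a * c * m1 ^ 2 + (44/3)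 * a * c * m4 ^ 2 - (95/64) * b ^ 4 * p ^ 2 * x ^ 2 - (77/6) * b ^ 3 * d * p ^ 2 * x ^ 2 + (15/4) * b ^ 3 * p * m4 * x + (3/2) * b ^ 2 * c ^ 2 * p ^ 2 * x ^ 2 + (5/8) * b ^ 2 * c ^ 2 * p ^ 2 * y ^ 2 + (3/2) * b ^ 2 * d ^ 2 * p ^ 2 * x ^ 2 + (3/2) * b ^ 2 * d ^ 2 * p ^ 2 * y ^ 2 - 6 * b ^ 2 * d * p * m4 * x + (15/8) * b ^ 2 * p ^ 2 * x ^ 2 + (15/16) * b ^ 2 * p ^ 2 * y ^ 2 - 5 * b ^ 2 * m1 ^ 2 - (3/2) * b ^ 2 * m4 ^ 2 + (53/6) * b * c ^ 2 * d * p ^ 2 * y ^ 2 - (1/2) * b * c ^ 2 * p * m1 * y - (77/6) * b * d ^ 3 * p ^ 2 * y ^ 2 + 6 * b * d ^ 2 * p * m1 * y + 2 * b * d * p ^ 2 * x ^ 2 + 2 * b * d * p ^ 2 * y ^ 2 - (16/3) * b * d * m1 ^ 2 - (16/3) * b * d * m4 ^ 2 - (3/4) * b * p * m1 * y + (145/64) * c ^ 4 * p ^ 2 * y ^ 2 - (25/32) * c ^ 2 * d ^ 2 * p ^ 2 * y ^ 2 +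 (15/4) * c ^ 2 * d * p * m1 * y - (9/16) * c ^ 2 * p ^ 2 * x ^ 2 - (15/8) * c ^ 2 * p ^ 2 * y ^ 2 + (3/2) * c ^ 2 * m1 ^ 2 + 5 * c ^ 2 * m4 ^ 2 - (95/64) * d ^ 4 * p ^ 2 * y ^ 2 - (15/4) * d ^ 3 * p * m1 * y + (15/16) * d ^ 2 * p ^ 2 * x ^ 2 + (15/8) * d ^ 2 * p ^ 2 * y ^ 2 - (3/2) * d ^ 2 * m1 ^ 2 - 5 * d ^ 2 * m4 ^ 2 + (3/4) * d * p * m4 * x

/-- scaled limit form -/
noncomputable def psiS (e a b c d x y p m1 m2 m3 m4 r : ℝ) : ℝ :=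
  ps0 a b c d x y p m1 m2 m3 m4 r + e^1 * ps1 a b c d x y p m1 m2 m3 m4 r + e^2 * ps2 a b c d x y p m1 m2 m3 m4 r

end Pool.Agent.W541
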