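import Pool.Agent.W541.Ex

set_option autoImplicit false
set_option linter.unusedSimpArgs false
set_option linter.unusedVariables false

/-!
# The metric near the torus, with tables of its Christoffel symbols
-/

namespace Pool.Agent.W541

open scoped BigOperators ContDiff

/-- the metric coefficients -/
noncomputable def Em (e : ℝ) (i j : Fin 4) : Ex :=
  match i, j with
  | 0, 0 => (Ex.add (Ex.add (Ex.add (Ex.c 1) (Ex.mul (Ex.add (Ex.c (-1)) (Ex.mul (Ex.c (e^2)) (Ex.add (Ex.add (Ex.add (Ex.add (Ex.add (Ex.mul (Ex.c (-44/3)) (Ex.mul (Ex.v 0) (Ex.v 2))) (Ex.mul (Ex.c (16/3)) (Ex.mul (Ex.v 1) (Ex.v 3)))) (Ex.mul (Ex.c (-5)) (Ex.mul (Ex.v 0) (Ex.v 0)))) (Ex.mul (Ex.c 5) (Ex.mul (Ex.v 1) (Ex.v 1)))) (Ex.mul (Ex.c (-3/2)) (Ex.mul (Ex.v 2) (Ex.v 2)))) (Ex.mul (Ex.c (5/2)) (Ex.mul (Ex.v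 3) (Ex.v 3)))))) (Ex.mul (Ex.v 4) (Ex.v 4)))) (Ex.mul (Ex.mul (Ex.c (-e)) (Ex.v 2)) (Ex.mul (Ex.v 4) (Ex.v 5)))) (Ex.mul (Ex.mul (Ex.c (e^2)) (Ex.add (Ex.add (Ex.c (-3/8)) (Ex.mul (Ex.c (-1/4)) (Ex.mul (Ex.v 2) (Ex.v 2)))) (Ex.mul (Ex.v 3) (Ex.v 3)))) (Ex.mul (Ex.v 5) (Ex.v 5))))
  | 1, 1 => (Ex.add (Ex.add (Ex.add (Ex.c 1) (Ex.mul (Ex.add (Ex.c (-1)) (Ex.mul (Ex.c (e^2)) (Ex.add (Ex.add (Ex.add (Ex.add (Ex.add (Ex.mul (Ex.c (-44/3)) (Ex.mul (Ex.v 0) (Ex.v 2))) (Ex.mul (Ex.c (16/3)) (Ex.mul (Ex.v 1) (Ex.v 3)))) (Ex.mul (Ex.c (-5)) (Ex.mul (Ex.v 2) (Ex.v 2)))) (Ex.mul (Ex.c 5) (Ex.mul (Ex.v 3) (Ex.v 3)))) (Ex.mul (Ex.c (-3/2)) (Ex.mul (Ex.v 0) (Ex.v 0)))) (Ex.mul (Ex.c (5/2)) (Ex.mul (Ex.v 1) (Ex.v 1)))))) (Ex.mul (Ex.v 5) (Ex.v 5)))) (Ex.mul (Ex.mul (Ex.c (-e)) (Ex.v 0)) (Ex.mul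 (Ex.v 4) (Ex.v 5)))) (Ex.mul (Ex.mul (Ex.c (e^2)) (Ex.add (Ex.add (Ex.c (-3/8)) (Ex.mul (Ex.c (-1/4)) (Ex.mul (Ex.v 0) (Ex.v 0)))) (Ex.mul (Ex.v 1) (Ex.v 1)))) (Ex.mul (Ex.v 4) (Ex.v 4))))
  | 0, 1 => (Ex.add (Ex.add (Ex.mul (Ex.mul (Ex.c (e^2)) (Ex.add (Ex.add (Ex.mul (Ex.c 2) (Ex.mul (Ex.v 1) (Ex.v 3))) (Ex.mul (Ex.c (15/8)) (Ex.mul (Ex.v 0) (Ex.v 0)))) (Ex.mul (Ex.c (-15/8)) (Ex.mul (Ex.v 1) (Ex.v 1))))) (Ex.mul (Ex.v 4) (Ex.v 4))) (Ex.mul (Ex.mul (Ex.c (3*e)) (Ex.add (Ex.v 0) (Ex.v 2))) (Ex.mul (Ex.v 4) (Ex.v 5)))) (Ex.mul (Ex.mul (Ex.c (e^2)) (Ex.add (Ex.add (Ex.mul (Ex.c 2) (Ex.mul (Ex.v 1) (Ex.v 3))) (Ex.mul (Ex.c (15/8)) (Ex.mul (Ex.v 2) (Ex.v 2)))) (Ex.mul (Ex.c (-15/8)) (Ex.mul (Ex.v 3) (Ex.v 3))))) (Ex.mul (Ex.v 5) (Ex.v 5))))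
  | 1, 0 => (Ex.add (Ex.add (Ex.mul (Ex.mul (Ex.c (e^2)) (Ex.add (Ex.add (Ex.mul (Ex.c 2) (Ex.mul (Ex.v 1) (Ex.v 3))) (Ex.mul (Ex.c (15/8)) (Ex.mul (Ex.v 0) (Ex.v 0)))) (Ex.mul (Ex.c (-15/8)) (Ex.mul (Ex.v 1) (Ex.v 1))))) (Ex.mul (Ex.v 4) (Ex.v 4))) (Ex.mul (Ex.mul (Ex.c (3*e)) (Ex.add (Ex.v 0) (Ex.v 2))) (Ex.mul (Ex.v 4) (Ex.v 5)))) (Ex.mul (Ex.mul (Ex.c (e^2)) (Ex.add (Ex.add (Ex.mul (Ex.c 2) (Ex.mul (Ex.v 1) (Ex.v 3))) (Ex.mul (Ex.c (15/8)) (Ex.mul (Ex.v 2) (Ex.v 2)))) (Ex.mul (Ex.c (-15/8)) (Ex.mul (Ex.v 3) (Ex.v 3))))) (Ex.mul (Ex.v 5) (Ex.v 5))))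
  | 0, 2 => (Ex.mul (Ex.c e) (Ex.mul (Ex.v 3) (Ex.v 5)))
  | 2, 0 => (Ex.mul (Ex.c e) (Ex.mul (Ex.v 3) (Ex.v 5)))
  | 0, 3 => (Ex.mul (Ex.c (-e)) (Ex.mul (Ex.v 3) (Ex.v 4)))
  | 3, 0 => (Ex.mul (Ex.c (-e)) (Ex.mul (Ex.v 3) (Ex.v 4)))
  | 1, 2 => (Ex.mul (Ex.c (-e)) (Ex.mul (Ex.v 1) (Ex.v 5)))
  | 2, 1 => (Ex.mul (Ex.c (-e)) (Ex.mul (Ex.v 1) (Ex.v 5)))
  | 1, 3 => (Ex.mul (Ex.c e) (Ex.mul (Ex.v 1) (Ex.v 4)))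
  | 3, 1 => (Ex.mul (Ex.c e) (Ex.mul (Ex.v 1) (Ex.v 4)))
  | 2, 2 => (Ex.add (Ex.c 1) (Ex.mul (Ex.c (-1)) (Ex.mul (Ex.v 5) (Ex.v 5))))
  | 2, 3 => (Ex.mul (Ex.v 4) (Ex.v 5))
  | 3, 2 => (Ex.mul (Ex.v 4) (Ex.v 5))
  | 3, 3 => (Ex.add (Ex.c 1) (Ex.mul (Ex.c (-1)) (Ex.mul (Ex.v 4) (Ex.v 4))))

/-- Christoffel symbols, as reflected expressions -/
noncomputable def Gp (e : ℝ) (p k l : Fin 4) (q : Fin 6 → ℝ) : ℝ :=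
  (((Em e l p).D k).ev q + ((Em e k p).D l).ev q - ((Em e k l).D p).ev q) / 2

/-- second-derivative part of the curvature, as reflected expressions -/
noncomputable def Sp (e : ℝ) (i k l m : Fin 4) (q : Fin 6 → ℝ) : ℝ :=
  ((((Em e i m).D k).D l).ev q + (((Em e k l).D i).D m).ev q - (((Em e i l).D k).D m).ev q
    - (((Em e k m).D i).D l).ev q) / 2

noncomputable def g000 (e a b c d x y : ℝ) : ℝ :=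
  10 * a * b * x ^ 2 * e ^ 2 - a * d * x ^ 2 * e ^ 2 + 6 * b * c * x ^ 2 * e ^ 2 - 2 * c * d * x ^ 2 * e ^ 2 - (5/8) * c * d * y ^ 2 * e ^ 2 - (1/4) * d * x * y * e

noncomputable def g001 (e a b c d x y : ℝ) : ℝ :=
  -(5 * a * b * x ^ 2 * e ^ 2) + 6 * a * d * x ^ 2 * e ^ 2 - b * c * x ^ 2 * e ^ 2 + 4 * c * d * x ^ 2 * e ^ 2 + (5/4) * c * d * y ^ 2 * e ^ 2 + (1/2) * d * x * y * e

noncomputable def g002 (e a b c d x y : ℝ) : ℝ :=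
  -(5 * a ^ 2 * x * e ^ 2) - (44/3) * a * c * x * e ^ 2 + 5 * b ^ 2 * x * e ^ 2 + (16/3) * b * d * x * e ^ 2 - (3/2) * c ^ 2 * x * e ^ 2 - (1/2) * c * y * e + (5/2) * d ^ 2 * x * e ^ 2 - x

noncomputable def g003 (e a b c d x y : ℝ) : ℝ :=
  -((1/4) * c ^ 2 * y * e ^ 2) - (1/2) * c * x * e + d ^ 2 * y * e ^ 2 - (3/8) * y * e ^ 2

noncomputable def g011 (e a b c d x y : ℝ) : ℝ :=
  (5/2) * a * b * x ^ 2 * e ^ 2 - 4 * a * b * y ^ 2 * e ^ 2 - a * d * x ^ 2 * e ^ 2 + 2 * b * c * x ^ 2 * e ^ 2 - 4 * b * c * y ^ 2 * e ^ 2 + b * x * y * e - (5/2) * c * d * y ^ 2 * e ^ 2 - 3 * d * x * y * e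

noncomputable def g012 (e a b c d x y : ℝ) : ℝ :=
  (15/8) * a ^ 2 * x * e ^ 2 + 2 * a * y * e - (15/8) * b ^ 2 * x * e ^ 2 + 2 * b * d * x * e ^ 2 + 2 * c * y * e

noncomputable def g013 (e a b c d x y : ℝ) : ℝ :=
  a * x * e + 2 * b * d * y * e ^ 2 + (15/8) * c ^ 2 * y * e ^ 2 + c * x * e - (15/8) * d ^ 2 * y * e ^ 2

noncomputable def g100 (e a b c d x y : ℝ) : ℝ :=
  -((5/2) * a * b * x ^ 2 * e ^ 2) - 4 * a * d * x ^ 2 * e ^ 2 + 2 * a * d * y ^ 2 * e ^ 2 - b * c * y ^ 2 * e ^ 2 - 3 * b * x * y * e - 4 * c * d * x ^ 2 * e ^ 2 + (5/2) * c * d * y ^ 2 * e ^ 2 + d * x * y * e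

noncomputable def g101 (e a b c d x y : ℝ) : ℝ :=
  (5/4) * a * b * x ^ 2 * e ^ 2 + 4 * a * b * y ^ 2 * e ^ 2 - a * d * y ^ 2 * e ^ 2 + 6 * b * c * y ^ 2 * e ^ 2 + (1/2) * b * x * y * e - 5 * c * d * y ^ 2 * e ^ 2

noncomputable def g102 (e a b c d x y : ℝ) : ℝ :=
  (15/8) * a ^ 2 * x * e ^ 2 + a * y * e - (15/8) * b ^ 2 * x * e ^ 2 + 2 * b * d * x * e ^ 2 + c * y * e

noncomputable def g103 (e a b c d x y : ℝ) : ℝ :=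
  2 * a * x * e + 2 * b * d * y * e ^ 2 + (15/8) * c ^ 2 * y * e ^ 2 + 2 * c * x * e - (15/8) * d ^ 2 * y * e ^ 2

noncomputable def g111 (e a b c d x y : ℝ) : ℝ :=
  -((5/8) * a * b * x ^ 2 * e ^ 2) - 2 * a * b * y ^ 2 * e ^ 2 + 6 * a * d * y ^ 2 * e ^ 2 - b * c * y ^ 2 * e ^ 2 - (1/4) * b * x * y * e + 10 * c * d * y ^ 2 * e ^ 2

noncomputable def g112 (e a b c d x y : ℝ) : ℝ :=
  -((1/4) * a ^ 2 * x * e ^ 2) - (1/2) * a * y * e + b ^ 2 * x * e ^ 2 - (3/8) * x * e ^ 2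

noncomputable def g113 (e a b c d x y : ℝ) : ℝ :=
  -((3/2) * a ^ 2 * y * e ^ 2) - (44/3) * a * c * y * e ^ 2 - (1/2) * a * x * e + (5/2) * b ^ 2 * y * e ^ 2 + (16/3) * b * d * y * e ^ 2 - 5 * c ^ 2 * y * e ^ 2 + 5 * d ^ 2 * y * e ^ 2 - y

noncomputable def g200 (e a b c d x y : ℝ) : ℝ :=
  5 * a ^ 2 * x * e ^ 2 + (44/3) * a * c * x * e ^ 2 - 5 * b ^ 2 * x * e ^ 2 - (16/3) * b * d * x * e ^ 2 + (3/2) * c ^ 2 * x * e ^ 2 - (5/2) * d ^ 2 * x * e ^ 2 + x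

noncomputable def g201 (e a b c d x y : ℝ) : ℝ :=
  -((15/8) * a ^ 2 * x * e ^ 2) - 2 * a * y * e + (15/8) * b ^ 2 * x * e ^ 2 - 2 * b * d * x * e ^ 2 - c * y * e

noncomputable def g203 (e a b c d x y : ℝ) : ℝ :=
  d * e

noncomputable def g211 (e a b c d x y : ℝ) : ℝ :=
  (1/4) * a ^ 2 * x * e ^ 2 + a * y * e - b ^ 2 * x * e ^ 2 + (3/8) * x * e ^ 2

noncomputable def g213 (e a b c d x y : ℝ) : ℝ :=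
  -(b * e)

noncomputable def g223 (e a b c d x y : ℝ) : ℝ :=
  -(y)

noncomputable def g233 (e a b c d x y : ℝ) : ℝ :=
  2 * x

noncomputable def g300 (e a b c d x y : ℝ) : ℝ :=
  (1/4) * c ^ 2 * y * e ^ 2 + c * x * e - d ^ 2 * y * e ^ 2 + (3/8) * y * e ^ 2

noncomputable def g301 (e a b c d x y : ℝ) : ℝ :=
  -(a * x * e) - 2 * b * d * y * e ^ 2 - (15/8) * c ^ 2 * y * e ^ 2 - 2 * c * x * e + (15/8) * d ^ 2 * y * e ^ 2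

noncomputable def g302 (e a b c d x y : ℝ) : ℝ :=
  -(d * e)

noncomputable def g311 (e a b c d x y : ℝ) : ℝ :=
  (3/2) * a ^ 2 * y * e ^ 2 + (44/3) * a * c * y * e ^ 2 - (5/2) * b ^ 2 * y * e ^ 2 - (16/3) * b * d * y * e ^ 2 + 5 * c ^ 2 * y * e ^ 2 - 5 * d ^ 2 * y * e ^ 2 + y

noncomputable def g312 (e a b c d x y : ℝ) : ℝ :=
  b * e

noncomputable def g322 (e a b c d x y : ℝ) : ℝ :=
  2 * y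

noncomputable def g323 (e a b c d x y : ℝ) : ℝ :=
  -(x)

noncomputable def s0101 (e a b c d x y : ℝ) : ℝ :=
  -(4 * a ^ 2 * y ^ 2 * e ^ 2) - 4 * a * c * x ^ 2 * e ^ 2 - 4 * a * c * y ^ 2 * e ^ 2 + a * x * y * e + 4 * b ^ 2 * y ^ 2 * e ^ 2 - 2 * b * d * x ^ 2 * e ^ 2 - 2 * b * d * y ^ 2 * e ^ 2 - 4 * c ^ 2 * x ^ 2 * e ^ 2 + c * x * y * e + 4 * d ^ 2 * x ^ 2 * e ^ 2

noncomputable def s0102 (e a b c d x y : ℝ) : ℝ :=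
  (5/2) * a * b * x * e ^ 2 - 10 * a * d * x * e ^ 2 + b * c * x * e ^ 2 - 2 * b * y * e - 8 * c * d * x * e ^ 2 + (1/2) * d * y * e

noncomputable def s0103 (e a b c d x y : ℝ) : ℝ :=
  2 * a * d * y * e ^ 2 - b * c * y * e ^ 2 - b * x * e + (5/4) * c * d * y * e ^ 2

noncomputable def s0112 (e a b c d x y : ℝ) : ℝ :=
  -((5/4) * a * b * x * e ^ 2) + a * d * x * e ^ 2 - 2 * b * c * x * e ^ 2 + d * y * e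

noncomputable def s0113 (e a b c d x y : ℝ) : ℝ :=
  8 * a * b * y * e ^ 2 - a * d * y * e ^ 2 + 10 * b * c * y * e ^ 2 - (1/2) * b * x * e - (5/2) * c * d * y * e ^ 2 + 2 * d * x * e

noncomputable def s0123 (e a b c d x y : ℝ) : ℝ :=
  -(a * e) - c * e

noncomputable def s0201 (e a b c d x y : ℝ) : ℝ :=
  (5/2) * a * b * x * e ^ 2 - 10 * a * d * x * e ^ 2 + b * c * x * e ^ 2 - 2 * b * y * e - 8 * c * d * x * e ^ 2 + (1/2) * d * y * e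

noncomputable def s0202 (e a b c d x y : ℝ) : ℝ :=
  5 * a ^ 2 * e ^ 2 + (44/3) * a * c * e ^ 2 - 5 * b ^ 2 * e ^ 2 - (16/3) * b * d * e ^ 2 + (3/2) * c ^ 2 * e ^ 2 - (5/2) * d ^ 2 * e ^ 2 + 1

noncomputable def s0203 (e a b c d x y : ℝ) : ℝ :=
  (1/2) * c * e

noncomputable def s0212 (e a b c d x y : ℝ) : ℝ :=
  -((15/8) * a ^ 2 * e ^ 2) + (15/8) * b ^ 2 * e ^ 2 - 2 * b * d * e ^ 2

noncomputable def s0213 (e a b c d x y : ℝ) : ℝ :=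
  -(2 * a * e) - 2 * c * e

noncomputable def s0301 (e a b c d x y : ℝ) : ℝ :=
  2 * a * d * y * e ^ 2 - b * c * y * e ^ 2 - b * x * e + (5/4) * c * d * y * e ^ 2

noncomputable def s0302 (e a b c d x y : ℝ) : ℝ :=
  (1/2) * c * e

noncomputable def s0303 (e a b c d x y : ℝ) : ℝ :=
  (1/4) * c ^ 2 * e ^ 2 - d ^ 2 * e ^ 2 + (3/8) * e ^ 2

noncomputable def s0312 (e a b c d x y : ℝ) : ℝ :=
  -(a * e) - c * e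

noncomputable def s0313 (e a b c d x y : ℝ) : ℝ :=
  -(2 * b * d * e ^ 2) - (15/8) * c ^ 2 * e ^ 2 + (15/8) * d ^ 2 * e ^ 2

noncomputable def s1201 (e a b c d x y : ℝ) : ℝ :=
  -((5/4) * a * b * x * e ^ 2) + a * d * x * e ^ 2 - 2 * b * c * x * e ^ 2 + d * y * e

noncomputable def s1202 (e a b c d x y : ℝ) : ℝ :=
  -((15/8) * a ^ 2 * e ^ 2) + (15/8) * b ^ 2 * e ^ 2 - 2 * b * d * e ^ 2

noncomputable def s1203 (e a b c d x y : ℝ) : ℝ :=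
  -(a * e) - c * e

noncomputable def s1212 (e a b c d x y : ℝ) : ℝ :=
  (1/4) * a ^ 2 * e ^ 2 - b ^ 2 * e ^ 2 + (3/8) * e ^ 2

noncomputable def s1213 (e a b c d x y : ℝ) : ℝ :=
  (1/2) * a * e

noncomputable def s1301 (e a b c d x y : ℝ) : ℝ :=
  8 * a * b * y * e ^ 2 - a * d * y * e ^ 2 + 10 * b * c * y * e ^ 2 - (1/2) * b * x * e - (5/2) * c * d * y * e ^ 2 + 2 * d * x * e

noncomputable def s1302 (e a b c d x y : ℝ) : ℝ :=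
  -(2 * a * e) - 2 * c * e

noncomputable def s1303 (e a b c d x y : ℝ) : ℝ :=
  -(2 * b * d * e ^ 2) - (15/8) * c ^ 2 * e ^ 2 + (15/8) * d ^ 2 * e ^ 2

noncomputable def s1312 (e a b c d x y : ℝ) : ℝ :=
  (1/2) * a * e

noncomputable def s1313 (e a b c d x y : ℝ) : ℝ :=
  (3/2) * a ^ 2 * e ^ 2 + (44/3) * a * c * e ^ 2 - (5/2) * b ^ 2 * e ^ 2 - (16/3) * b * d * e ^ 2 + 5 * c ^ 2 * e ^ 2 - 5 * d ^ 2 * e ^ 2 + 1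

noncomputable def s2301 (e a b c d x y : ℝ) : ℝ :=
  -(a * e) - c * e

noncomputable def s2323 (e a b c d x y : ℝ) : ℝ :=
  3

/-- table of Christoffel symbols -/
noncomputable def Gt (e : ℝ) (p k l : Fin 4) (q : Fin 6 → ℝ) : ℝ :=
  match p, k, l with
  | 0, 0, 0 => g000 e (q 0) (q 1) (q 2) (q 3) (q 4) (q 5)
  | 0, 0, 1 => g001 e (q 0) (q 1) (q 2) (q 3) (q 4) (q 5)
  | 0, 0, 2 => g002 e (q 0) (q 1) (q 2) (q 3) (q 4) (q 5)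
  | 0, 0, 3 => g003 e (q 0) (q 1) (q 2) (q 3) (q 4) (q 5)
  | 0, 1, 0 => g001 e (q 0) (q 1) (q 2) (q 3) (q 4) (q 5)
  | 0, 1, 1 => g011 e (q 0) (q 1) (q 2) (q 3) (q 4) (q 5)
  | 0, 1, 2 => g012 e (q 0) (q 1) (q 2) (q 3) (q 4) (q 5)
  | 0, 1, 3 => g013 e (q 0) (q 1) (q 2) (q 3) (q 4) (q 5)
  | 0, 2, 0 => g002 e (q 0) (q 1) (q 2) (q 3) (q 4) (q 5)
  | 0, 2, 1 => g012 e (q 0) (q 1) (q 2) (q 3) (q 4) (q 5)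
  | 0, 3, 0 => g003 e (q 0) (q 1) (q 2) (q 3) (q 4) (q 5)
  | 0, 3, 1 => g013 e (q 0) (q 1) (q 2) (q 3) (q 4) (q 5)
  | 1, 0, 0 => g100 e (q 0) (q 1) (q 2) (q 3) (q 4) (q 5)
  | 1, 0, 1 => g101 e (q 0) (q 1) (q 2) (q 3) (q 4) (q 5)
  | 1, 0, 2 => g102 e (q 0) (q 1) (q 2) (q 3) (q 4) (q 5)
  | 1, 0, 3 => g103 e (q 0) (q 1) (q 2) (q 3) (q 4) (q 5)
  | 1, 1, 0 => g101 e (q 0) (q 1) (q 2) (q 3) (q 4) (q 5)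
  | 1, 1, 1 => g111 e (q 0) (q 1) (q 2) (q 3) (q 4) (q 5)
  | 1, 1, 2 => g112 e (q 0) (q 1) (q 2) (q 3) (q 4) (q 5)
  | 1, 1, 3 => g113 e (q 0) (q 1) (q 2) (q 3) (q 4) (q 5)
  | 1, 2, 0 => g102 e (q 0) (q 1) (q 2) (q 3) (q 4) (q 5)
  | 1, 2, 1 => g112 e (q 0) (q 1) (q 2) (q 3) (q 4) (q 5)
  | 1, 3, 0 => g103 e (q 0) (q 1) (q 2) (q 3) (q 4) (q 5)
  | 1, 3, 1 => g113 e (q 0) (q 1) (q 2) (q 3) (q 4) (q 5)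
  | 2, 0, 0 => g200 e (q 0) (q 1) (q 2) (q 3) (q 4) (q 5)
  | 2, 0, 1 => g201 e (q 0) (q 1) (q 2) (q 3) (q 4) (q 5)
  | 2, 0, 3 => g203 e (q 0) (q 1) (q 2) (q 3) (q 4) (q 5)
  | 2, 1, 0 => g201 e (q 0) (q 1) (q 2) (q 3) (q 4) (q 5)
  | 2, 1, 1 => g211 e (q 0) (q 1) (q 2) (q 3) (q 4) (q 5)
  | 2, 1, 3 => g213 e (q 0) (q 1) (q 2) (q 3) (q 4) (q 5)
  | 2, 2, 3 => g223 e (q 0) (q 1) (q 2) (q 3) (q 4) (q 5)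
  | 2, 3, 0 => g203 e (q 0) (q 1) (q 2) (q 3) (q 4) (q 5)
  | 2, 3, 1 => g213 e (q 0) (q 1) (q 2) (q 3) (q 4) (q 5)
  | 2, 3, 2 => g223 e (q 0) (q 1) (q 2) (q 3) (q 4) (q 5)
  | 2, 3, 3 => g233 e (q 0) (q 1) (q 2) (q 3) (q 4) (q 5)
  | 3, 0, 0 => g300 e (q 0) (q 1) (q 2) (q 3) (q 4) (q 5)
  | 3, 0, 1 => g301 e (q 0) (q 1) (q 2) (q 3) (q 4) (q 5)
  | 3, 0, 2 => g302 e (q 0) (q 1) (q 2) (q 3) (q 4) (q 5)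
  | 3, 1, 0 => g301 e (q 0) (q 1) (q 2) (q 3) (q 4) (q 5)
  | 3, 1, 1 => g311 e (q 0) (q 1) (q 2) (q 3) (q 4) (q 5)
  | 3, 1, 2 => g312 e (q 0) (q 1) (q 2) (q 3) (q 4) (q 5)
  | 3, 2, 0 => g302 e (q 0) (q 1) (q 2) (q 3) (q 4) (q 5)
  | 3, 2, 1 => g312 e (q 0) (q 1) (q 2) (q 3) (q 4) (q 5)
  | 3, 2, 2 => g322 e (q 0) (q 1) (q 2) (q 3) (q 4) (q 5)
  | 3, 2, 3 => g323 e (q 0) (q 1) (q 2) (q 3) (q 4) (q 5)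
  | 3, 3, 2 => g323 e (q 0) (q 1) (q 2) (q 3) (q 4) (q 5)
  | _, _, _ => 0

/-- table of second-derivative parts -/
noncomputable def St (e : ℝ) (i k l m : Fin 4) (q : Fin 6 → ℝ) : ℝ :=
  match i, k, l, m with
  | 0, 1, 0, 1 => s0101 e (q 0) (q 1) (q 2) (q 3) (q 4) (q 5)
  | 0, 1, 0, 2 => s0102 e (q 0) (q 1) (q 2) (q 3) (q 4) (q 5)
  | 0, 1, 0, 3 => s0103 e (q 0) (q 1) (q 2) (q 3) (q 4) (q 5)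
  | 0, 1, 1, 2 => s0112 e (q 0) (q 1) (q 2) (q 3) (q 4) (q 5)
  | 0, 1, 1, 3 => s0113 e (q 0) (q 1) (q 2) (q 3) (q 4) (q 5)
  | 0, 1, 2, 3 => s0123 e (q 0) (q 1) (q 2) (q 3) (q 4) (q 5)
  | 0, 2, 0, 1 => s0201 e (q 0) (q 1) (q 2) (q 3) (q 4) (q 5)
  | 0, 2, 0, 2 => s0202 e (q 0) (q 1) (q 2) (q 3) (q 4) (q 5)
  | 0, 2, 0, 3 => s0203 e (q 0) (q 1) (q 2) (q 3) (q 4) (q 5)
  | 0, 2, 1, 2 => s0212 e (q 0) (q 1) (q 2) (q 3) (q 4) (q 5)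
  | 0, 2, 1, 3 => s0213 e (q 0) (q 1) (q 2) (q 3) (q 4) (q 5)
  | 0, 3, 0, 1 => s0301 e (q 0) (q 1) (q 2) (q 3) (q 4) (q 5)
  | 0, 3, 0, 2 => s0302 e (q 0) (q 1) (q 2) (q 3) (q 4) (q 5)
  | 0, 3, 0, 3 => s0303 e (q 0) (q 1) (q 2) (q 3) (q 4) (q 5)
  | 0, 3, 1, 2 => s0312 e (q 0) (q 1) (q 2) (q 3) (q 4) (q 5)
  | 0, 3, 1, 3 => s0313 e (q 0) (q 1) (q 2) (q 3) (q 4) (q 5)
  | 1, 2, 0, 1 => s1201 e (q 0) (q 1) (q 2) (q 3) (q 4) (q 5)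
  | 1, 2, 0, 2 => s1202 e (q 0) (q 1) (q 2) (q 3) (q 4) (q 5)
  | 1, 2, 0, 3 => s1203 e (q 0) (q 1) (q 2) (q 3) (q 4) (q 5)
  | 1, 2, 1, 2 => s1212 e (q 0) (q 1) (q 2) (q 3) (q 4) (q 5)
  | 1, 2, 1, 3 => s1213 e (q 0) (q 1) (q 2) (q 3) (q 4) (q 5)
  | 1, 3, 0, 1 => s1301 e (q 0) (q 1) (q 2) (q 3) (q 4) (q 5)
  | 1, 3, 0, 2 => s1302 e (q 0) (q 1) (q 2) (q 3) (q 4) (q 5)
  | 1, 3, 0, 3 => s1303 e (q 0) (q 1) (q 2) (q 3) (q 4) (q 5)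
  | 1, 3, 1, 2 => s1312 e (q 0) (q 1) (q 2) (q 3) (q 4) (q 5)
  | 1, 3, 1, 3 => s1313 e (q 0) (q 1) (q 2) (q 3) (q 4) (q 5)
  | 2, 3, 0, 1 => s2301 e (q 0) (q 1) (q 2) (q 3) (q 4) (q 5)
  | 2, 3, 2, 3 => s2323 e (q 0) (q 1) (q 2) (q 3) (q 4) (q 5)
  | _, _, _, _ => 0

theorem Gp_symm (e : ℝ) (hs : ∀ i j, Em e i j = Em e j i) (p k l : Fin 4) (q : Fin 6 → ℝ) : Gp e p k l q = Gp e p l k q := by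
  unfold Gp; rw [hs l k]; ring

theorem Gp_eq0 (e : ℝ) (k l : Fin 4) (q : Fin 6 → ℝ) : Gp e 0 k l q = Gt e 0 k l q := by
  fin_cases k <;> fin_cases l <;>
    (simp [Gp, Gt, Em, Ex.D, Ex.ev, dv, g000, g001, g002, g003, g011, g012, g013]; try ring)

theorem Gp_eq1 (e : ℝ) (k l : Fin 4) (q : Fin 6 → ℝ) : Gp e 1 k l q = Gt e 1 k l q := by
  fin_cases k <;> fin_cases l <;>
    (simp [Gp, Gt, Em, Ex.D, Ex.ev, dv, g100, g101, g102, g103, g111, g112, g113]; try ring)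

theorem Gp_eq2 (e : ℝ) (k l : Fin 4) (q : Fin 6 → ℝ) : Gp e 2 k l q = Gt e 2 k l q := by
  fin_cases k <;> fin_cases l <;>
    (simp [Gp, Gt, Em, Ex.D, Ex.ev, dv, g200, g201, g203, g211, g213, g223, g233]; try ring)

theorem Gp_eq3 (e : ℝ) (k l : Fin 4) (q : Fin 6 → ℝ) : Gp e 3 k l q = Gt e 3 k l q := by
  fin_cases k <;> fin_cases l <;>
    (simp [Gp, Gt, Em, Ex.D, Ex.ev, dv, g300, g301, g302, g311, g312, g322, g323]; try ring)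

theorem Gp_eq (e : ℝ) (p k l : Fin 4) (q : Fin 6 → ℝ) : Gp e p k l q = Gt e p k l q := by
  fin_cases p
  · exact Gp_eq0 e k l q
  · exact Gp_eq1 e k l q
  · exact Gp_eq2 e k l q
  · exact Gp_eq3 e k l q

theorem Sp_eq0101 (e : ℝ) (q : Fin 6 → ℝ) : Sp e 0 1 0 1 q = St e 0 1 0 1 q := by
  simp [Sp, St, Em, Ex.D, Ex.ev, dv, s0101]; try ring

theorem Sp_eq0102 (e : ℝ) (q : Fin 6 → ℝ) : Sp e 0 1 0 2 q = St e 0 1 0 2 q := by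
  simp [Sp, St, Em, Ex.D, Ex.ev, dv, s0102]; try ring

theorem Sp_eq0103 (e : ℝ) (q : Fin 6 → ℝ) : Sp e 0 1 0 3 q = St e 0 1 0 3 q := by
  simp [Sp, St, Em, Ex.D, Ex.ev, dv, s0103]; try ring

theorem Sp_eq0112 (e : ℝ) (q : Fin 6 → ℝ) : Sp e 0 1 1 2 q = St e 0 1 1 2 q := by
  simp [Sp, St, Em, Ex.D, Ex.ev, dv, s0112]; try ring

theorem Sp_eq0113 (e : ℝ) (q : Fin 6 → ℝ) : Sp e 0 1 1 3 q = St e 0 1 1 3 q := by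
  simp [Sp, St, Em, Ex.D, Ex.ev, dv, s0113]; try ring

theorem Sp_eq0123 (e : ℝ) (q : Fin 6 → ℝ) : Sp e 0 1 2 3 q = St e 0 1 2 3 q := by
  simp [Sp, St, Em, Ex.D, Ex.ev, dv, s0123]; try ring

theorem Sp_eq0201 (e : ℝ) (q : Fin 6 → ℝ) : Sp e 0 2 0 1 q = St e 0 2 0 1 q := by
  simp [Sp, St, Em, Ex.D, Ex.ev, dv, s0201]; try ring

theorem Sp_eq0202 (e : ℝ) (q : Fin 6 → ℝ) : Sp e 0 2 0 2 q = St e 0 2 0 2 q := by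
  simp [Sp, St, Em, Ex.D, Ex.ev, dv, s0202]; try ring

theorem Sp_eq0203 (e : ℝ) (q : Fin 6 → ℝ) : Sp e 0 2 0 3 q = St e 0 2 0 3 q := by
  simp [Sp, St, Em, Ex.D, Ex.ev, dv, s0203]; try ring

theorem Sp_eq0212 (e : ℝ) (q : Fin 6 → ℝ) : Sp e 0 2 1 2 q = St e 0 2 1 2 q := by
  simp [Sp, St, Em, Ex.D, Ex.ev, dv, s0212]; try ring

theorem Sp_eq0213 (e : ℝ) (q : Fin 6 → ℝ) : Sp e 0 2 1 3 q = St e 0 2 1 3 q := by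
  simp [Sp, St, Em, Ex.D, Ex.ev, dv, s0213]; try ring

theorem Sp_eq0223 (e : ℝ) (q : Fin 6 → ℝ) : Sp e 0 2 2 3 q = St e 0 2 2 3 q := by
  simp [Sp, St, Em, Ex.D, Ex.ev, dv]; try ring

theorem Sp_eq0301 (e : ℝ) (q : Fin 6 → ℝ) : Sp e 0 3 0 1 q = St e 0 3 0 1 q := by
  simp [Sp, St, Em, Ex.D, Ex.ev, dv, s0301]; try ring

theorem Sp_eq0302 (e : ℝ) (q : Fin 6 → ℝ) : Sp e 0 3 0 2 q = St e 0 3 0 2 q := by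
  simp [Sp, St, Em, Ex.D, Ex.ev, dv, s0302]; try ring

theorem Sp_eq0303 (e : ℝ) (q : Fin 6 → ℝ) : Sp e 0 3 0 3 q = St e 0 3 0 3 q := by
  simp [Sp, St, Em, Ex.D, Ex.ev, dv, s0303]; try ring

theorem Sp_eq0312 (e : ℝ) (q : Fin 6 → ℝ) : Sp e 0 3 1 2 q = St e 0 3 1 2 q := by
  simp [Sp, St, Em, Ex.D, Ex.ev, dv, s0312]; try ring

theorem Sp_eq0313 (e : ℝ) (q : Fin 6 → ℝ) : Sp e 0 3 1 3 q = St e 0 3 1 3 q := by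
  simp [Sp, St, Em, Ex.D, Ex.ev, dv, s0313]; try ring

theorem Sp_eq0323 (e : ℝ) (q : Fin 6 → ℝ) : Sp e 0 3 2 3 q = St e 0 3 2 3 q := by
  simp [Sp, St, Em, Ex.D, Ex.ev, dv]; try ring

theorem Sp_eq1201 (e : ℝ) (q : Fin 6 → ℝ) : Sp e 1 2 0 1 q = St e 1 2 0 1 q := by
  simp [Sp, St, Em, Ex.D, Ex.ev, dv, s1201]; try ring

theorem Sp_eq1202 (e : ℝ) (q : Fin 6 → ℝ) : Sp e 1 2 0 2 q = St e 1 2 0 2 q := by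
  simp [Sp, St, Em, Ex.D, Ex.ev, dv, s1202]; try ring

theorem Sp_eq1203 (e : ℝ) (q : Fin 6 → ℝ) : Sp e 1 2 0 3 q = St e 1 2 0 3 q := by
  simp [Sp, St, Em, Ex.D, Ex.ev, dv, s1203]; try ring

theorem Sp_eq1212 (e : ℝ) (q : Fin 6 → ℝ) : Sp e 1 2 1 2 q = St e 1 2 1 2 q := by
  simp [Sp, St, Em, Ex.D, Ex.ev, dv, s1212]; try ring

theorem Sp_eq1213 (e : ℝ) (q : Fin 6 → ℝ) : Sp e 1 2 1 3 q = St e 1 2 1 3 q := by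
  simp [Sp, St, Em, Ex.D, Ex.ev, dv, s1213]; try ring

theorem Sp_eq1223 (e : ℝ) (q : Fin 6 → ℝ) : Sp e 1 2 2 3 q = St e 1 2 2 3 q := by
  simp [Sp, St, Em, Ex.D, Ex.ev, dv]; try ring

theorem Sp_eq1301 (e : ℝ) (q : Fin 6 → ℝ) : Sp e 1 3 0 1 q = St e 1 3 0 1 q := by
  simp [Sp, St, Em, Ex.D, Ex.ev, dv, s1301]; try ring

theorem Sp_eq1302 (e : ℝ) (q : Fin 6 → ℝ) : Sp e 1 3 0 2 q = St e 1 3 0 2 q := by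
  simp [Sp, St, Em, Ex.D, Ex.ev, dv, s1302]; try ring

theorem Sp_eq1303 (e : ℝ) (q : Fin 6 → ℝ) : Sp e 1 3 0 3 q = St e 1 3 0 3 q := by
  simp [Sp, St, Em, Ex.D, Ex.ev, dv, s1303]; try ring

theorem Sp_eq1312 (e : ℝ) (q : Fin 6 → ℝ) : Sp e 1 3 1 2 q = St e 1 3 1 2 q := by
  simp [Sp, St, Em, Ex.D, Ex.ev, dv, s1312]; try ring

theorem Sp_eq1313 (e : ℝ) (q : Fin 6 → ℝ) : Sp e 1 3 1 3 q = St e 1 3 1 3 q := by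
  simp [Sp, St, Em, Ex.D, Ex.ev, dv, s1313]; try ring

theorem Sp_eq1323 (e : ℝ) (q : Fin 6 → ℝ) : Sp e 1 3 2 3 q = St e 1 3 2 3 q := by
  simp [Sp, St, Em, Ex.D, Ex.ev, dv]; try ring

theorem Sp_eq2301 (e : ℝ) (q : Fin 6 → ℝ) : Sp e 2 3 0 1 q = St e 2 3 0 1 q := by
  simp [Sp, St, Em, Ex.D, Ex.ev, dv, s2301]; try ring

theorem Sp_eq2302 (e : ℝ) (q : Fin 6 → ℝ) : Sp e 2 3 0 2 q = St e 2 3 0 2 q := by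
  simp [Sp, St, Em, Ex.D, Ex.ev, dv]; try ring

theorem Sp_eq2303 (e : ℝ) (q : Fin 6 → ℝ) : Sp e 2 3 0 3 q = St e 2 3 0 3 q := by
  simp [Sp, St, Em, Ex.D, Ex.ev, dv]; try ring

theorem Sp_eq2312 (e : ℝ) (q : Fin 6 → ℝ) : Sp e 2 3 1 2 q = St e 2 3 1 2 q := by
  simp [Sp, St, Em, Ex.D, Ex.ev, dv]; try ring

theorem Sp_eq2313 (e : ℝ) (q : Fin 6 → ℝ) : Sp e 2 3 1 3 q = St e 2 3 1 3 q := by
  simp [Sp, St, Em, Ex.D, Ex.ev, dv]; try ring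

theorem Sp_eq2323 (e : ℝ) (q : Fin 6 → ℝ) : Sp e 2 3 2 3 q = St e 2 3 2 3 q := by
  simp [Sp, St, Em, Ex.D, Ex.ev, dv, s2323]; try ring

end Pool.Agent.W541
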