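import Pool.Agent.W541.Form

set_option autoImplicit false
set_option linter.unusedSimpArgs false
set_option linter.unusedVariables false

/-!
# Positivity near the torus
-/

namespace Pool.Agent.W541

open scoped BigOperators

theorem psiS_smul (e a b c d x y t p m1 m2 m3 m4 r : ℝ) :
    psiS e a b c d x y (t * p) (t * m1) (t * m2) (t * m3) (t * m4) (t * r) =
      t ^ 2 * psiS e a b c d x y p m1 m2 m3 m4 r := by
  unfold psiS ps0 ps1 ps2
  ring

/-- unit circle conditions on the base parameters -/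
def circ (y : Fin 6 → ℝ) : Prop := y 0 ^ 2 + y 1 ^ 2 = 1 ∧ y 2 ^ 2 + y 3 ^ 2 = 1 ∧ y 4 ^ 2 + y 5 ^ 2 = 1

/-- normalisation of a nonzero vector -/
theorem normalise {n : ℕ} (m : Fin n → ℝ) (hm : m ≠ 0) :
    ∃ t : ℝ, t ≠ 0 ∧ ∑ i, (t * m i) ^ 2 = 1 := by
  set N : ℝ := ∑ i, m i ^ 2 with hN
  have hNpos : 0 < N := by
    obtain ⟨i, hi⟩ := Function.ne_iff.1 hm
    have hi' : m i ≠ 0 := hi
    exact Finset.sum_pos' (fun i _ => sq_nonneg _) ⟨i, Finset.mem_univ _, by positivity⟩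
  refine ⟨(Real.sqrt N)⁻¹, by positivity, ?_⟩
  have h1 : ∀ i, ((Real.sqrt N)⁻¹ * m i) ^ 2 = N⁻¹ * m i ^ 2 := by
    intro i
    rw [mul_pow, inv_pow, Real.sq_sqrt hNpos.le]
  simp only [h1, ← Finset.mul_sum]
  rw [← hN]
  exact inv_mul_cancel₀ hNpos.ne'

theorem psiS_pos {e : ℝ} (h : ∀ z ∈ KK,
    0 < psiS e (z 0) (z 1) (z 2) (z 3) (z 4) (z 5) (z 6) (z 7) (z 8) (z 9) (z 10) (z 11))
    (y m : Fin 6 → ℝ) (hy : circ y) (hm : m ≠ 0) :
    0 < psiS e (y 0) (y 1) (y 2) (y 3) (y 4) (y 5) (m 0) (m 1) (m 2) (m 3) (m 4) (m 5) := by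
  obtain ⟨t, ht, hN⟩ := normalise m hm
  have hz := h ![y 0, y 1, y 2, y 3, y 4, y 5, t * m 0, t * m 1, t * m 2, t * m 3, t * m 4, t * m 5]
    ⟨hy.1, hy.2.1, hy.2.2, by simpa [Fin.sum_univ_six] using hN⟩
  have hz' : 0 < psiS e (y 0) (y 1) (y 2) (y 3) (y 4) (y 5) (t * m 0) (t * m 1) (t * m 2) (t * m 3) (t * m 4)
    (t * m 5) := hz
  rw [psiS_smul] at hz'
  exact (mul_pos_iff_of_pos_left (by positivity)).1 hz'

theorem Psi_zero_pos {e : ℝ} (he : 0 < e) (h : ∀ z ∈ KK,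
    0 < psiS e (z 0) (z 1) (z 2) (z 3) (z 4) (z 5) (z 6) (z 7) (z 8) (z 9) (z 10) (z 11))
    (y m : Fin 6 → ℝ) (hy : circ y) (hm : m ≠ 0) : 0 < Psi e 0 y m := by
  rw [Psi_zero]
  have := psiS_pos h y ![e * m 0, m 1, e * m 2, e * m 3, m 4, m 5] hy (by
    intro h0
    apply hm
    have he' := he.ne'
    funext i
    have h1 := congrFun h0 i
    fin_cases i <;> simpa [he'] using h1)
  exact this

theorem ev_cont (E : Ex) : Continuous E.ev := by
  induction E with
  | c r => exact continuous_const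
  | v i => exact continuous_apply i
  | add x y hx hy => exact hx.add hy
  | mul x y hx hy => exact hx.mul hy

theorem Gt_cont (e : ℝ) (p k l : Fin 4) : Continuous (Gt e p k l) := by
  have h : Gt e p k l = Gp e p k l := funext fun q => (Gp_eq e p k l q).symm
  rw [h]
  unfold Gp
  have h1 := ev_cont ((Em e l p).D k)
  have h2 := ev_cont ((Em e k p).D l)
  have h3 := ev_cont ((Em e k l).D p)
  fun_prop

theorem St_cont (e : ℝ) (α β : Fin 6) : Continuous (St e (pr1 α) (pr2 α) (pr1 β) (pr2 β)) := by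
  have h : St e (pr1 α) (pr2 α) (pr1 β) (pr2 β) = Sp e (pr1 α) (pr2 α) (pr1 β) (pr2 β) :=
    funext fun q => (Sp_eq e α β q).symm
  rw [h]
  unfold Sp
  have h1 := ev_cont (((Em e (pr1 α) (pr2 β)).D (pr2 α)).D (pr1 β))
  have h2 := ev_cont (((Em e (pr2 α) (pr1 β)).D (pr1 α)).D (pr2 β))
  have h3 := ev_cont (((Em e (pr1 α) (pr1 β)).D (pr2 α)).D (pr2 β))
  have h4 := ev_cont (((Em e (pr2 α) (pr2 β)).D (pr1 α)).D (pr1 β))
  fun_prop

theorem sc_cont : Continuous (fun z : ℝ × (Fin 6 → ℝ) => sc z.1 z.2) := by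
  unfold sc
  apply continuous_pi
  intro i
  fin_cases i <;> simp <;> fun_prop

theorem Gm_cont (e : ℝ) : Continuous (fun z : ℝ × (Fin 6 → ℝ) => Gm e (sc z.1 z.2)) := by
  unfold Gm
  apply continuous_pi
  intro i
  apply continuous_pi
  intro j
  exact (ev_cont (Em e i j)).comp sc_cont

theorem Gm_inv_cont (e : ℝ) (y : Fin 6 → ℝ) (p r : Fin 4) :
    ContinuousAt (fun z : ℝ × (Fin 6 → ℝ) => (Gm e (sc z.1 z.2))⁻¹ p r) (0, y) := by
  have h : (fun z : ℝ × (Fin 6 → ℝ) => (Gm e (sc z.1 z.2))⁻¹ p r) =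
      fun z => (Gm e (sc z.1 z.2)).det⁻¹ * (Gm e (sc z.1 z.2)).adjugate p r := by
    funext z
    rw [Matrix.inv_def, Ring.inverse_eq_inv']
    rfl
  rw [h]
  apply ContinuousAt.mul
  · apply ContinuousAt.inv₀
    · exact ((Gm_cont e).matrix_det).continuousAt
    · simp [Gm_zero]
  · have : Continuous (fun z : ℝ × (Fin 6 → ℝ) => (Gm e (sc z.1 z.2)).adjugate) :=
      (Gm_cont e).matrix_adjugate
    exact ((continuous_apply r).comp ((continuous_apply p).comp this)).continuousAt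

theorem Fc_cont (e : ℝ) (α β : Fin 6) (y : Fin 6 → ℝ) :
    ContinuousAt (fun z : ℝ × (Fin 6 → ℝ) => Fc e α β z.1 z.2) (0, y) := by
  unfold Fc
  apply ContinuousAt.add
  · exact ((St_cont e α β).comp continuous_snd).continuousAt
  · apply tendsto_finsetSum
    intro p _
    apply tendsto_finsetSum
    intro r _
    apply ContinuousAt.mul (Gm_inv_cont e y p r)
    apply Continuous.continuousAt
    have g1 := Gt_cont e p (pr2 α) (pr1 β)
    have g2 := Gt_cont e r (pr1 α) (pr2 β)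
    have g3 := Gt_cont e p (pr2 α) (pr2 β)
    have g4 := Gt_cont e r (pr1 α) (pr1 β)
    fun_prop

theorem cf_cont (α β : Fin 6) : Continuous (cf α β) := by
  unfold cf
  split_ifs <;> fun_prop

/-- curvature positivity near the torus, in blown-up form -/
theorem exists_delta {e : ℝ} (he : 0 < e) (h : ∀ z ∈ KK,
    0 < psiS e (z 0) (z 1) (z 2) (z 3) (z 4) (z 5) (z 6) (z 7) (z 8) (z 9) (z 10) (z 11)) :
    ∃ δ : ℝ, 0 < δ ∧ ∀ s : ℝ, |s| < δ → ∀ y m : Fin 6 → ℝ, circ y → m ≠ 0 → 0 < Psi e s y m := by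
  obtain ⟨δ, hδ, hh⟩ := pos_near KK_compact
    (fun s z => Psi e s ![z 0, z 1, z 2, z 3, z 4, z 5] ![z 6, z 7, z 8, z 9, z 10, z 11])
    (by
      intro z _
      unfold Psi
      apply tendsto_finsetSum
      intro α _
      apply tendsto_finsetSum
      intro β _
      have c1 : Continuous (fun w : ℝ × (Fin 12 → ℝ) => (![w.2 0, w.2 1, w.2 2, w.2 3, w.2 4, w.2 5] : Fin 6 → ℝ)) := by
        apply continuous_pi
        intro i
        fin_cases i <;> simp <;> fun_prop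
      have c2 : Continuous (fun w : ℝ × (Fin 12 → ℝ) => (![w.2 6, w.2 7, w.2 8, w.2 9, w.2 10, w.2 11] : Fin 6 → ℝ)) := by
        apply continuous_pi
        intro i
        fin_cases i <;> simp <;> fun_prop
      apply ContinuousAt.mul
      · exact ((cf_cont α β).comp c2).continuousAt
      · exact ContinuousAt.comp (f := fun w : ℝ × (Fin 12 → ℝ) =>
          (w.1, (![w.2 0, w.2 1, w.2 2, w.2 3, w.2 4, w.2 5] : Fin 6 → ℝ))) (x := (0, z))
          (g := fun z : ℝ × (Fin 6 → ℝ) => Fc e α β z.1 z.2) (Fc_cont e α β _)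
          ((continuous_fst.prodMk c1).continuousAt))
    (by
      rintro z ⟨h1, h2, h3, h4⟩
      apply Psi_zero_pos he h
      · exact ⟨h1, h2, h3⟩
      · intro h0
        have a6 := congrFun h0 0
        have a7 := congrFun h0 1
        have a8 := congrFun h0 2
        have a9 := congrFun h0 3
        have a10 := congrFun h0 4
        have a11 := congrFun h0 5
        simp at a6 a7 a8 a9 a10 a11
        rw [a6, a7, a8, a9, a10, a11] at h4
        norm_num at h4)
  refine ⟨δ, hδ, fun s hs y m hy hm => ?_⟩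
  obtain ⟨t, ht, hN⟩ := normalise m hm
  have hz := hh s hs ![y 0, y 1, y 2, y 3, y 4, y 5, t * m 0, t * m 1, t * m 2, t * m 3, t * m 4, t * m 5]
    ⟨hy.1, hy.2.1, hy.2.2, by simpa [Fin.sum_univ_six] using hN⟩
  have e1 : (![y 0, y 1, y 2, y 3, y 4, y 5] : Fin 6 → ℝ) = y := by
    funext i; fin_cases i <;> rfl
  have e2 : (![t * m 0, t * m 1, t * m 2, t * m 3, t * m 4, t * m 5] : Fin 6 → ℝ) = fun i => t * m i := by
    funext i; fin_cases i <;> rfl
  have hz' : 0 < Psi e s ![y 0, y 1, y 2, y 3, y 4, y 5] ![t * m 0, t * m 1, t * m 2, t * m 3, t * m 4, t * m 5] := hz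
  rw [e1, e2, Psi_smul] at hz'
  exact (mul_pos_iff_of_pos_left (by positivity)).1 hz'

/-- parameter set for the metric -/
def KV : Set (Fin 10 → ℝ) := {z | z 0 ^ 2 + z 1 ^ 2 = 1 ∧ z 2 ^ 2 + z 3 ^ 2 = 1 ∧ z 4 ^ 2 + z 5 ^ 2 = 1 ∧
  z 6 ^ 2 + z 7 ^ 2 + z 8 ^ 2 + z 9 ^ 2 = 1}

theorem KV_compact : IsCompact KV := by
  apply Metric.isCompact_of_isClosed_isBounded
  · unfold KV
    simp only [Set.ofPred_and]
    refine IsClosed.inter ?_ (IsClosed.inter ?_ (IsClosed.inter ?_ ?_)) <;>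
      exact isClosed_eq (by fun_prop) continuous_const
  · refine (Metric.isBounded_closedBall (x := (0 : Fin 10 → ℝ)) (r := 1)).subset ?_
    rintro z ⟨h1, h2, h3, h4⟩
    rw [mem_closedBall_zero_iff, pi_norm_le_iff_of_nonneg zero_le_one]
    intro i
    rw [Real.norm_eq_abs, abs_le_one_iff_mul_self_le_one]
    fin_cases i <;> simp <;> nlinarith [sq_nonneg (z 0), sq_nonneg (z 1), sq_nonneg (z 2), sq_nonneg (z 3),
      sq_nonneg (z 4), sq_nonneg (z 5), sq_nonneg (z 6), sq_nonneg (z 7), sq_nonneg (z 8), sq_nonneg (z 9)]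

/-- quadratic form of the metric -/
noncomputable def qm (e : ℝ) (q : Fin 6 → ℝ) (v : Fin 4 → ℝ) : ℝ := ∑ i, ∑ j, Gm e q i j * v i * v j

theorem qm_smul (e t : ℝ) (q : Fin 6 → ℝ) (v : Fin 4 → ℝ) : qm e q (fun i => t * v i) = t ^ 2 * qm e q v := by
  unfold qm
  simp only [Finset.mul_sum]
  refine Finset.sum_congr rfl fun a _ => Finset.sum_congr rfl fun b _ => by ring

theorem exists_delta_metric (e : ℝ) :
    ∃ δ : ℝ, 0 < δ ∧ ∀ s : ℝ, |s| < δ → ∀ (y : Fin 6 → ℝ) (v : Fin 4 → ℝ), circ y → v ≠ 0 →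
      0 < qm e (sc s y) v := by
  obtain ⟨δ, hδ, hh⟩ := pos_near KV_compact
    (fun s z => qm e (sc s ![z 0, z 1, z 2, z 3, z 4, z 5]) ![z 6, z 7, z 8, z 9])
    (by
      intro z _
      apply Continuous.continuousAt
      unfold qm
      apply continuous_finsetSum
      intro i _
      apply continuous_finsetSum
      intro j _
      have c1 : Continuous (fun w : ℝ × (Fin 10 → ℝ) => (![w.2 0, w.2 1, w.2 2, w.2 3, w.2 4, w.2 5] : Fin 6 → ℝ)) := by
        apply continuous_pi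
        intro i
        fin_cases i <;> simp <;> fun_prop
      have c2 : Continuous (fun w : ℝ × (Fin 10 → ℝ) => (![w.2 6, w.2 7, w.2 8, w.2 9] : Fin 4 → ℝ)) := by
        apply continuous_pi
        intro i
        fin_cases i <;> simp <;> fun_prop
      apply Continuous.mul
      · apply Continuous.mul
        · have h1 := (Gm_cont e).comp (continuous_fst.prodMk c1 : Continuous (fun w : ℝ × (Fin 10 → ℝ) =>
            (w.1, (![w.2 0, w.2 1, w.2 2, w.2 3, w.2 4, w.2 5] : Fin 6 → ℝ))))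
          exact (continuous_apply j).comp ((continuous_apply i).comp h1)
        · exact (continuous_apply i).comp c2
      · exact (continuous_apply j).comp c2)
    (by
      rintro z ⟨h1, h2, h3, h4⟩
      unfold qm
      rw [Gm_zero]
      simp [Matrix.one_apply, Fin.sum_univ_four]
      nlinarith)
  refine ⟨δ, hδ, fun s hs y v hy hv => ?_⟩
  obtain ⟨t, ht, hN⟩ := normalise v hv
  have hz := hh s hs ![y 0, y 1, y 2, y 3, y 4, y 5, t * v 0, t * v 1, t * v 2, t * v 3]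
    ⟨hy.1, hy.2.1, hy.2.2, by simpa [Fin.sum_univ_four] using hN⟩
  have e1 : (![y 0, y 1, y 2, y 3, y 4, y 5] : Fin 6 → ℝ) = y := by
    funext i; fin_cases i <;> rfl
  have e2 : (![t * v 0, t * v 1, t * v 2, t * v 3] : Fin 4 → ℝ) = fun i => t * v i := by
    funext i; fin_cases i <;> rfl
  have hz' : 0 < qm e (sc s ![y 0, y 1, y 2, y 3, y 4, y 5]) ![t * v 0, t * v 1, t * v 2, t * v 3] := hz
  rw [e1, e2, qm_smul] at hz'
  exact (mul_pos_iff_of_pos_left (by positivity)).1 hz'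

end Pool.Agent.W541
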