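import Pool.Agent.W541.Curv

set_option autoImplicit false

/-!
# Curvature of a metric pulled back by a product map
-/

namespace Pool.Agent.W541

open scoped BigOperators ContDiff

theorem pd_mul {f g : (Fin 4 → ℝ) → ℝ} {x : Fin 4 → ℝ} (hf : DifferentiableAt ℝ f x)
    (hg : DifferentiableAt ℝ g x) (k : Fin 4) :
    pd k (fun y => f y * g y) x = pd k f x * g x + f x * pd k g x := by
  unfold pd
  rw [fderiv_fun_mul hf hg]
  simp
  ring

theorem pd_add {f g : (Fin 4 → ℝ) → ℝ} {x : Fin 4 → ℝ} (hf : DifferentiableAt ℝ f x)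
    (hg : DifferentiableAt ℝ g x) (k : Fin 4) :
    pd k (fun y => f y + g y) x = pd k f x + pd k g x := by
  unfold pd
  rw [fderiv_fun_add hf hg]
  simp

theorem pd_coord {h : ℝ → ℝ} (hh : Differentiable ℝ h) (k i : Fin 4) (x : Fin 4 → ℝ) :
    pd k (fun y => h (y i)) x = if k = i then deriv h (x i) else 0 := by
  unfold pd
  have h1 : HasFDerivAt (fun y : Fin 4 → ℝ => y i) (ContinuousLinearMap.proj (R := ℝ) (φ := fun _ : Fin 4 => ℝ) i) x :=
    (ContinuousLinearMap.proj (R := ℝ) (φ := fun _ : Fin 4 => ℝ) i).hasFDerivAt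
  have h2 := (hh (x i)).hasDerivAt.comp_hasFDerivAt x h1
  have h3 : fderiv ℝ (fun y : Fin 4 → ℝ => h (y i)) x = _ := h2.fderiv
  rw [h3]
  by_cases hki : k = i
  · subst hki; simp
  · simp [hki, Ne.symm hki]

/-- product map -/
def Phi (φ : Fin 4 → ℝ → ℝ) (x : Fin 4 → ℝ) : Fin 4 → ℝ := fun i => φ i (x i)

theorem phi_contDiff {φ : Fin 4 → ℝ → ℝ} {n : WithTop ℕ∞} (hφ : ∀ i, ContDiff ℝ n (φ i)) :
    ContDiff ℝ n (Phi φ) := by
  unfold Phi
  rw [contDiff_pi]
  intro i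
  exact (hφ i).comp (contDiff_apply ℝ ℝ i)

theorem pd_phi {φ : Fin 4 → ℝ → ℝ} (hφ : ∀ i, Differentiable ℝ (φ i)) {f : (Fin 4 → ℝ) → ℝ}
    (hf : Differentiable ℝ f) (k : Fin 4) (x : Fin 4 → ℝ) :
    pd k (fun y => f (Phi φ y)) x = deriv (φ k) (x k) * pd k f (Phi φ x) := by
  unfold pd
  have hP : DifferentiableAt ℝ (Phi φ) x := by
    unfold Phi
    rw [differentiableAt_pi]
    intro i
    exact (hφ i (x i)).comp x (differentiableAt_apply i x)
  have h1 : fderiv ℝ (fun y => f (Phi φ y)) x = (fderiv ℝ f (Phi φ x)).comp (fderiv ℝ (Phi φ) x) :=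
    fderiv_comp x (hf _) hP
  rw [h1]
  have h2 : fderiv ℝ (Phi φ) x (Pi.single k 1) = deriv (φ k) (x k) • (Pi.single k 1 : Fin 4 → ℝ) := by
    ext i
    have h3 : fderiv ℝ (Phi φ) x = ContinuousLinearMap.pi fun i => fderiv ℝ (fun y : Fin 4 → ℝ => φ i (y i)) x := by
      apply fderiv_pi
      intro i
      exact (hφ i (x i)).comp x (differentiableAt_apply i x)
    rw [h3]
    have h4 := pd_coord (hφ i) k i x
    unfold pd at h4
    simp only [ContinuousLinearMap.coe_pi', h4, Pi.smul_apply, Pi.single_apply, smul_eq_mul, mul_ite, mul_one, mul_zero]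
    by_cases hki : k = i
    · subst hki; simp
    · simp [hki, Ne.symm hki]
  simp only [ContinuousLinearMap.comp_apply, h2, map_smul, smul_eq_mul]

/-- pulled-back metric -/
noncomputable def pull (φ : Fin 4 → ℝ → ℝ) (g : Fin 4 → Fin 4 → (Fin 4 → ℝ) → ℝ) (i j : Fin 4)
    (x : Fin 4 → ℝ) : ℝ :=
  deriv (φ i) (x i) * deriv (φ j) (x j) * g i j (Phi φ x)

section
variable {φ : Fin 4 → ℝ → ℝ} (hφ : ∀ i, ContDiff ℝ ∞ (φ i))
include hφ

theorem d0 (i : Fin 4) : Differentiable ℝ (φ i) := (hφ i).differentiable (by simp)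

theorem cd1 (i : Fin 4) : ContDiff ℝ ∞ (deriv (φ i)) :=
  ((contDiff_infty_iff_deriv).1 (hφ i)).2

theorem cd2 (i : Fin 4) : ContDiff ℝ ∞ (deriv (deriv (φ i))) :=
  ((contDiff_infty_iff_deriv).1 (cd1 hφ i)).2

theorem d1 (i : Fin 4) : Differentiable ℝ (deriv (φ i)) := (cd1 hφ i).differentiable (by simp)

theorem d2 (i : Fin 4) : Differentiable ℝ (deriv (deriv (φ i))) := (cd2 hφ i).differentiable (by simp)

theorem dc1 (i : Fin 4) (x : Fin 4 → ℝ) :
    DifferentiableAt ℝ (fun y : Fin 4 → ℝ => deriv (φ i) (y i)) x := by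
  have h := (d1 hφ i (x i))
  exact DifferentiableAt.fun_comp' (g := deriv (φ i)) x h (differentiableAt_apply i x)

theorem dc2 (i : Fin 4) (x : Fin 4 → ℝ) :
    DifferentiableAt ℝ (fun y : Fin 4 → ℝ => deriv (deriv (φ i)) (y i)) x := by
  have h := (d2 hφ i (x i))
  exact DifferentiableAt.fun_comp' (g := deriv (deriv (φ i))) x h (differentiableAt_apply i x)

theorem dphi {f : (Fin 4 → ℝ) → ℝ} (hf : Differentiable ℝ f) (x : Fin 4 → ℝ) :
    DifferentiableAt ℝ (fun y => f (Phi φ y)) x := by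
  have hP : DifferentiableAt ℝ (Phi φ) x :=
    ((phi_contDiff hφ).differentiable (by simp)) x
  exact (hf _).comp x hP

theorem pull_contDiff {g : Fin 4 → Fin 4 → (Fin 4 → ℝ) → ℝ} (hg : ∀ i j, ContDiff ℝ ∞ (g i j))
    (i j : Fin 4) : ContDiff ℝ ∞ (pull φ g i j) := by
  unfold pull
  exact (((cd1 hφ i).comp (contDiff_apply ℝ ℝ i)).mul ((cd1 hφ j).comp (contDiff_apply ℝ ℝ j))).mul
    ((hg i j).comp (phi_contDiff hφ))

/-- first derivative of the pulled-back metric -/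
theorem pd_pull {g : Fin 4 → Fin 4 → (Fin 4 → ℝ) → ℝ} (hg : ∀ i j, ContDiff ℝ ∞ (g i j))
    (i j k : Fin 4) (x : Fin 4 → ℝ) :
    pd k (pull φ g i j) x =
      (if k = i then deriv (deriv (φ i)) (x i) else 0) * deriv (φ j) (x j) * g i j (Phi φ x)
      + deriv (φ i) (x i) * (if k = j then deriv (deriv (φ j)) (x j) else 0) * g i j (Phi φ x)
      + deriv (φ i) (x i) * deriv (φ j) (x j) * (deriv (φ k) (x k) * pd k (g i j) (Phi φ x)) := by
  have hgd : Differentiable ℝ (g i j) := (hg i j).differentiable (by simp)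
  unfold pull
  rw [pd_mul ((dc1 hφ i x).fun_mul (dc1 hφ j x)) (dphi hφ hgd x), pd_mul (dc1 hφ i x) (dc1 hφ j x),
    pd_coord (d1 hφ i), pd_coord (d1 hφ j), pd_phi (d0 hφ) hgd]
  ring

theorem gam_pull {g : Fin 4 → Fin 4 → (Fin 4 → ℝ) → ℝ} (hg : ∀ i j, ContDiff ℝ ∞ (g i j))
    (hsym : ∀ i j, g i j = g j i) (a k l : Fin 4) (x : Fin 4 → ℝ) :
    gam (pull φ g) a k l x =
      deriv (φ a) (x a) * deriv (φ k) (x k) * deriv (φ l) (x l) * gam g a k l (Phi φ x)
      + (if k = l then 1 else 0) * (deriv (deriv (φ k)) (x k) * deriv (φ a) (x a) * g k a (Phi φ x)) := by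
  unfold gam
  rw [pd_pull hφ hg, pd_pull hφ hg, pd_pull hφ hg]
  by_cases h1 : k = l
  · subst h1
    by_cases h2 : a = k
    · subst h2; simp; ring
    · have h2' : ¬ k = a := fun h => h2 h.symm
      simp [h2, h2']
      ring
  · have h1' : ¬ l = k := fun h => h1 h.symm
    by_cases h2 : a = k
    · subst h2; simp [h1, h1', hsym l a]; ring
    · have h2' : ¬ k = a := fun h => h2 h.symm
      by_cases h3 : a = l
      · subst h3; simp [h1, h1', hsym k a]; ring
      · have h3' : ¬ l = a := fun h => h3 h.symm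
        simp [h1, h1', h2, h2', h3, h3']; ring

end

end Pool.Agent.W541
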