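import Pool.Agent.W541.Pull

set_option autoImplicit false

/-!
# Curvature of a metric pulled back by a product map: the tensor rule
-/

namespace Pool.Agent.W541

open scoped BigOperators ContDiff

theorem gam_diff {g : Fin 4 → Fin 4 → (Fin 4 → ℝ) → ℝ} (hg : ∀ i j, ContDiff ℝ ∞ (g i j))
    (a k l : Fin 4) : Differentiable ℝ (gam g a k l) := by
  have hd : ∀ i j k, Differentiable ℝ (pd k (g i j)) := by
    intro i j k
    have h2 : ContDiff ℝ 2 (g i j) := by exact_mod_cast (contDiff_infty.1 (hg i j)) 2
    have h1 : ContDiff ℝ 1 (fderiv ℝ (g i j)) := h2.fderiv_right (m := 1) (by norm_num)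
    have : Differentiable ℝ (fderiv ℝ (g i j)) := h1.differentiable (by norm_num)
    intro y
    exact (this y).clm_apply (differentiableAt_const _)
  have h0 : gam g a k l = fun y => (pd k (g l a) y + pd l (g k a) y - pd a (g k l) y) * (1/2) := by
    funext y; unfold gam; ring
  rw [h0]
  exact (((hd l a k).fun_add (hd k a l)).fun_sub (hd k l a)).mul_const (1/2)

section
variable {φ : Fin 4 → ℝ → ℝ} (hφ : ∀ i, ContDiff ℝ ∞ (φ i))
include hφ

theorem pd_gam_pull {g : Fin 4 → Fin 4 → (Fin 4 → ℝ) → ℝ} (hg : ∀ i j, ContDiff ℝ ∞ (g i j))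
    (hsym : ∀ i j, g i j = g j i) (i k m l : Fin 4) (x : Fin 4 → ℝ) :
    pd l (gam (pull φ g) i k m) x =
      ((if l = i then deriv (deriv (φ i)) (x i) else 0) * deriv (φ k) (x k) * deriv (φ m) (x m)
        + deriv (φ i) (x i) * (if l = k then deriv (deriv (φ k)) (x k) else 0) * deriv (φ m) (x m)
        + deriv (φ i) (x i) * deriv (φ k) (x k) * (if l = m then deriv (deriv (φ m)) (x m) else 0))
          * gam g i k m (Phi φ x)
      + deriv (φ i) (x i) * deriv (φ k) (x k) * deriv (φ m) (x m) *
          (deriv (φ l) (x l) * pd l (gam g i k m) (Phi φ x))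
      + (if k = m then 1 else 0) *
        ((if l = k then deriv (deriv (deriv (φ k))) (x k) else 0) * deriv (φ i) (x i) * g k i (Phi φ x)
          + deriv (deriv (φ k)) (x k) * (if l = i then deriv (deriv (φ i)) (x i) else 0) * g k i (Phi φ x)
          + deriv (deriv (φ k)) (x k) * deriv (φ i) (x i) *
            (deriv (φ l) (x l) * pd l (g k i) (Phi φ x))) := by
  have h0 : gam (pull φ g) i k m = fun y =>
      (deriv (φ i) (y i) * deriv (φ k) (y k) * deriv (φ m) (y m)) * gam g i k m (Phi φ y)
      + (if k = m then 1 else 0) * (deriv (deriv (φ k)) (y k) * deriv (φ i) (y i) * g k i (Phi φ y)) := by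
    funext y; rw [gam_pull hφ hg hsym]
  have hgd : Differentiable ℝ (g k i) := (hg k i).differentiable (by simp)
  have hG := gam_diff hg i k m
  have a1 := dc1 hφ i x
  have a2 := dc1 hφ k x
  have a3 := dc1 hφ m x
  have b1 := dc2 hφ k x
  have c1 := dphi hφ hG x
  have c2 := dphi hφ hgd x
  rw [h0, pd_add (((a1.fun_mul a2).fun_mul a3).fun_mul c1)
      ((differentiableAt_const _).fun_mul ((b1.fun_mul a1).fun_mul c2)),
    pd_mul ((a1.fun_mul a2).fun_mul a3) c1, pd_mul (a1.fun_mul a2) a3, pd_mul a1 a2,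
    pd_mul (differentiableAt_const _) ((b1.fun_mul a1).fun_mul c2), pd_mul (b1.fun_mul a1) c2,
    pd_mul b1 a1, pd_coord (d1 hφ i), pd_coord (d1 hφ k), pd_coord (d1 hφ m), pd_coord (d2 hφ k),
    pd_phi (d0 hφ) hG, pd_phi (d0 hφ) hgd]
  have h1 : pd l (fun _ : Fin 4 → ℝ => (if k = m then (1:ℝ) else 0)) x = 0 := by
    unfold pd; simp
  rw [h1]
  ring

end

theorem bil_add_left (M : Matrix (Fin 4) (Fin 4) ℝ) (X X' Y : Fin 4 → ℝ) :
    bil M (fun a => X a + X' a) Y = bil M X Y + bil M X' Y := by
  unfold bil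
  simp only [← Finset.sum_add_distrib]
  refine Finset.sum_congr rfl fun a _ => Finset.sum_congr rfl fun b _ => by ring

theorem bil_add_right (M : Matrix (Fin 4) (Fin 4) ℝ) (X Y Y' : Fin 4 → ℝ) :
    bil M X (fun a => Y a + Y' a) = bil M X Y + bil M X Y' := by
  unfold bil
  simp only [← Finset.sum_add_distrib]
  refine Finset.sum_congr rfl fun a _ => Finset.sum_congr rfl fun b _ => by ring

theorem bil_smul_left (M : Matrix (Fin 4) (Fin 4) ℝ) (c : ℝ) (X Y : Fin 4 → ℝ) :
    bil M (fun a => c * X a) Y = c * bil M X Y := by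
  unfold bil
  simp only [Finset.mul_sum]
  refine Finset.sum_congr rfl fun a _ => Finset.sum_congr rfl fun b _ => by ring

theorem bil_smul_right (M : Matrix (Fin 4) (Fin 4) ℝ) (c : ℝ) (X Y : Fin 4 → ℝ) :
    bil M X (fun a => c * Y a) = c * bil M X Y := by
  unfold bil
  simp only [Finset.mul_sum]
  refine Finset.sum_congr rfl fun a _ => Finset.sum_congr rfl fun b _ => by ring

theorem bil_inv_left {G : Matrix (Fin 4) (Fin 4) ℝ} (hG : IsUnit G.det) 
    (k : Fin 4) (Y : Fin 4 → ℝ) : bil G⁻¹ (fun a => G k a) Y = Y k := by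
  unfold bil
  have h : G * G⁻¹ = 1 := Matrix.mul_nonsing_inv G hG
  have : ∀ b, ∑ a, G k a * G⁻¹ a b = (1 : Matrix (Fin 4) (Fin 4) ℝ) k b := by
    intro b
    rw [← h, Matrix.mul_apply]
  rw [Finset.sum_comm]
  have h2 : ∀ b, ∑ a, G⁻¹ a b * (G k a * Y b) = (1 : Matrix (Fin 4) (Fin 4) ℝ) k b * Y b := by
    intro b
    rw [← this, Finset.sum_mul]
    refine Finset.sum_congr rfl fun a _ => by ring
  simp only [h2, Matrix.one_apply]
  simp

theorem bil_inv_right {G : Matrix (Fin 4) (Fin 4) ℝ} (hG : IsUnit G.det) (hs : ∀ a b, G a b = G b a)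
    (k : Fin 4) (X : Fin 4 → ℝ) : bil G⁻¹ X (fun a => G k a) = X k := by
  unfold bil
  have h : G⁻¹ * G = 1 := Matrix.nonsing_inv_mul G hG
  have : ∀ a, ∑ b, G⁻¹ a b * G k b = (1 : Matrix (Fin 4) (Fin 4) ℝ) a k := by
    intro a
    rw [← h, Matrix.mul_apply]
    refine Finset.sum_congr rfl fun b _ => by rw [hs k b]
  have h2 : ∀ a, ∑ b, G⁻¹ a b * (X a * G k b) = (1 : Matrix (Fin 4) (Fin 4) ℝ) a k * X a := by
    intro a
    rw [← this, Finset.sum_mul]
    refine Finset.sum_congr rfl fun b _ => by ring
  simp only [h2, Matrix.one_apply]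
  simp

theorem riem_bil (g : Fin 4 → Fin 4 → (Fin 4 → ℝ) → ℝ) (i k l m : Fin 4) (x : Fin 4 → ℝ) :
    riem g i k l m x = sec g i k l m x
      + bil (Matrix.of fun p q => g p q x)⁻¹ (fun a => gam g a k l x) (fun b => gam g b i m x)
      - bil (Matrix.of fun p q => g p q x)⁻¹ (fun a => gam g a k m x) (fun b => gam g b i l x) := by
  unfold riem bil
  rw [add_sub_assoc, ← Finset.sum_sub_distrib]
  congr 1
  refine Finset.sum_congr rfl fun a _ => ?_
  rw [← Finset.sum_sub_distrib]
  refine Finset.sum_congr rfl fun b _ => by ring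

/-- inverse of a diagonally rescaled matrix -/
theorem inv_scale {G : Matrix (Fin 4) (Fin 4) ℝ} (d : Fin 4 → ℝ) (hd : ∀ i, d i ≠ 0) :
    (Matrix.of fun p q => d p * d q * G p q)⁻¹ = Matrix.of fun p q => G⁻¹ p q / (d p * d q) := by
  have h1 : (Matrix.of fun p q => d p * d q * G p q) = Matrix.diagonal d * G * Matrix.diagonal d := by
    ext p q
    simp [Matrix.mul_diagonal, Matrix.diagonal_mul]
    ring
  rw [h1, Matrix.mul_inv_rev, Matrix.mul_inv_rev]
  have h2 : (Matrix.diagonal d)⁻¹ = Matrix.diagonal (fun i => (d i)⁻¹) := by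
    apply Matrix.inv_eq_right_inv
    rw [Matrix.diagonal_mul_diagonal]
    rw [← Matrix.diagonal_one]
    congr 1
    funext i
    simp [hd i]
  rw [h2]
  ext p q
  simp [Matrix.mul_diagonal, Matrix.diagonal_mul]
  field_simp

theorem bil_scale (M : Matrix (Fin 4) (Fin 4) ℝ) (d : Fin 4 → ℝ) (X Y : Fin 4 → ℝ) :
    bil (Matrix.of fun p q => M p q / (d p * d q)) X Y = bil M (fun a => X a / d a) (fun a => Y a / d a) := by
  unfold bil
  refine Finset.sum_congr rfl fun a _ => Finset.sum_congr rfl fun b _ => ?_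
  simp only [Matrix.of_apply]
  field_simp

/-- the tensor rule for the coordinate curvature under product maps -/
theorem riem_pull {φ : Fin 4 → ℝ → ℝ} (hφ : ∀ i, ContDiff ℝ ∞ (φ i))
    {g : Fin 4 → Fin 4 → (Fin 4 → ℝ) → ℝ} (hg : ∀ i j, ContDiff ℝ ∞ (g i j))
    (hsym : ∀ i j, g i j = g j i) (x : Fin 4 → ℝ) (hd : ∀ i, deriv (φ i) (x i) ≠ 0)
    (hdet : IsUnit (Matrix.of fun p q => g p q (Phi φ x)).det) (i k l m : Fin 4) :
    riem (pull φ g) i k l m x =
      deriv (φ i) (x i) * deriv (φ k) (x k) * deriv (φ l) (x l) * deriv (φ m) (x m) *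
        riem g i k l m (Phi φ x) := by
  have hg2 : ∀ i j, ContDiff ℝ 2 (g i j) := fun i j => by exact_mod_cast (contDiff_infty.1 (hg i j)) 2
  have hp2 : ∀ i j, ContDiff ℝ 2 (pull φ g i j) := fun i j => by
    exact_mod_cast (contDiff_infty.1 (pull_contDiff hφ hg i j)) 2
  have hpsym : ∀ i j, pull φ g i j = pull φ g j i := by
    intro i j; funext y; unfold pull; rw [hsym i j]; ring
  have hgs : ∀ i j y, g i j y = g j i y := fun i j y => by rw [hsym i j]
  set d : Fin 4 → ℝ := fun i => deriv (φ i) (x i) with hddef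
  set G : Matrix (Fin 4) (Fin 4) ℝ := Matrix.of fun p q => g p q (Phi φ x) with hG
  have hGs : ∀ a b, G a b = G b a := fun a b => by simp [hG, hgs a b]
  have hinv : (Matrix.of fun p q => pull φ g p q x)⁻¹ = Matrix.of fun p q => G⁻¹ p q / (d p * d q) := by
    rw [← inv_scale d hd]
    rfl
  have hcomp : ∀ a b c : Fin 4, gam g a b c (Phi φ x) + gam g b a c (Phi φ x) = pd c (g a b) (Phi φ x) := by
    intro a b c
    unfold gam
    rw [hsym c a, hsym c b, hsym b a]
    ring
  -- the quadratic part
  have hB : ∀ k l i m : Fin 4, bil (Matrix.of fun p q => pull φ g p q x)⁻¹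
      (fun a => gam (pull φ g) a k l x) (fun b => gam (pull φ g) b i m x) =
      d k * d l * d i * d m * bil G⁻¹ (fun a => gam g a k l (Phi φ x)) (fun a => gam g a i m (Phi φ x))
      + (if i = m then 1 else 0) * deriv (deriv (φ i)) (x i) * (d k * d l * gam g i k l (Phi φ x))
      + (if k = l then 1 else 0) * deriv (deriv (φ k)) (x k) * (d i * d m * gam g k i m (Phi φ x))
      + (if k = l then 1 else 0) * (if i = m then 1 else 0) * deriv (deriv (φ k)) (x k) *
          deriv (deriv (φ i)) (x i) * g k i (Phi φ x) := by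
    intro k l i m
    rw [hinv, bil_scale]
    have e1 : ∀ k l, (fun a => gam (pull φ g) a k l x / d a) =
        fun a => (d k * d l) * gam g a k l (Phi φ x)
          + ((if k = l then 1 else 0) * deriv (deriv (φ k)) (x k)) * G k a := by
      intro k l
      funext a
      rw [gam_pull hφ hg hsym]
      have : d a ≠ 0 := hd a
      simp only [hG, Matrix.of_apply, hddef] at this ⊢
      field_simp
    rw [e1, e1, bil_add_left, bil_add_right, bil_add_right]
    simp only [bil_smul_left, bil_smul_right]
    rw [bil_inv_right hdet hGs, bil_inv_left hdet, bil_inv_left hdet]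
    simp only [hG, Matrix.of_apply]
    rw [hgs i k]
    ring
  rw [riem_bil, riem_bil, hB, hB, sec_eq hp2 hpsym, sec_eq hg2 hsym, pd_gam_pull hφ hg hsym,
    pd_gam_pull hφ hg hsym]
  have c1 := hcomp i k m
  have c2 := hcomp i k l
  rw [hsym i k] at c1 c2
  have hdv : ∀ i, deriv (φ i) (x i) = d i := fun i => rfl
  simp only [hdv]
  generalize bil G⁻¹ _ _ = B1
  generalize bil G⁻¹ _ _ = B2
  clear hinv hB hdet hGs hG
  by_cases hkl : k = l
  · subst hkl
    by_cases hkm : k = m
    · subst hkm
      by_cases hik : i = k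
      · subst hik; simp; ring
      · have hik' : ¬ k = i := fun h => hik h.symm
        simp [hik, hik']; ring
    · have hkm' : ¬ m = k := fun h => hkm h.symm
      by_cases hik : i = k
      · subst hik
        simp [hkm, hkm']
        linear_combination (deriv (deriv (φ i)) (x i) * d i * d m) * c1
      · have hik' : ¬ k = i := fun h => hik h.symm
        by_cases him : i = m
        · subst him
          simp [hkm, hkm']
          linear_combination (deriv (deriv (φ k)) (x k) * d i * d i) * c1
        · have him' : ¬ m = i := fun h => him h.symm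
          simp [hkm, hkm', hik, hik', him, him']
          linear_combination (deriv (deriv (φ k)) (x k) * d i * d m) * c1
  · have hkl' : ¬ l = k := fun h => hkl h.symm
    by_cases hkm : k = m
    · subst hkm
      by_cases hik : i = k
      · subst hik
        simp [hkl, hkl']
        linear_combination -(deriv (deriv (φ i)) (x i) * d i * d l) * c2
      · have hik' : ¬ k = i := fun h => hik h.symm
        by_cases hil : i = l
        · subst hil
          simp [hkl, hkl']
          linear_combination -(deriv (deriv (φ k)) (x k) * d i * d i) * c2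
        · have hil' : ¬ l = i := fun h => hil h.symm
          simp [hkl, hkl', hik, hik', hil, hil']
          linear_combination -(deriv (deriv (φ k)) (x k) * d i * d l) * c2
    · have hkm' : ¬ m = k := fun h => hkm h.symm
      by_cases hlm : l = m
      · subst hlm
        by_cases hil : i = l
        · subst hil; simp [hkl, hkl']; ring
        · have hil' : ¬ l = i := fun h => hil h.symm
          simp [hkl, hkl', hil, hil']; ring
      · have hlm' : ¬ m = l := fun h => hlm h.symm
        by_cases hil : i = l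
        · subst hil
          simp [hkl, hkl', hkm, hkm', hlm, hlm']; ring
        · have hil' : ¬ l = i := fun h => hil h.symm
          by_cases him : i = m
          · subst him
            simp [hkl, hkl', hkm, hkm', hlm, hlm']; ring
          · have him' : ¬ m = i := fun h => him h.symm
            simp [hkl, hkl', hkm, hkm', hlm, hlm', hil, hil', him, him']; ring

end Pool.Agent.W541
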