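import Pool.Agent.W541.Blow

set_option autoImplicit false
set_option linter.unusedSimpArgs false
set_option linter.unusedVariables false

/-!
# The blown-up curvature at the torus, and its scaled form
-/

namespace Pool.Agent.W541

open scoped BigOperators

theorem Fc_zero (e : ℝ) (α β : Fin 6) (y : Fin 6 → ℝ) :
    Fc e α β 0 y = St e (pr1 α) (pr2 α) (pr1 β) (pr2 β) y + ∑ p,
      (0 ^ (w p (pr2 α) (pr1 β) + w p (pr1 α) (pr2 β) - tau α β) *
        (Gt e p (pr2 α) (pr1 β) y * Gt e p (pr1 α) (pr2 β) y)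
      - 0 ^ (w p (pr2 α) (pr2 β) + w p (pr1 α) (pr1 β) - tau α β) *
        (Gt e p (pr2 α) (pr2 β) y * Gt e p (pr1 α) (pr1 β) y)) := by
  unfold Fc
  rw [Gm_zero, inv_one]
  congr 1
  refine Finset.sum_congr rfl fun p _ => ?_
  rw [Finset.sum_eq_single p]
  · simp [Matrix.one_apply]
  · intro b _ hb
    simp [Matrix.one_apply, hb.symm]
  · simp

theorem Fz00 (e : ℝ) (y : Fin 6 → ℝ) : Fc e 0 0 0 y = r00 e (y 0) (y 1) (y 2) (y 3) (y 4) (y 5) := by
  rw [Fc_zero]
  simp [Fin.sum_univ_four, w, tau, pr1, pr2, St, Gt, g000, g001, g002, g003, g011, g012, g013, g100, g101, g102, g103, g111, g112, g113, g200, g201, g203, g211, g213, g223, g233, g300, g301, g302, g311, g312, g322, g323, r00, s0101]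
  try ring

theorem Fz01 (e : ℝ) (y : Fin 6 → ℝ) : Fc e 0 1 0 y = r01 e (y 0) (y 1) (y 2) (y 3) (y 4) (y 5) := by
  rw [Fc_zero]
  simp [Fin.sum_univ_four, w, tau, pr1, pr2, St, Gt, g000, g001, g002, g003, g011, g012, g013, g100, g101, g102, g103, g111, g112, g113, g200, g201, g203, g211, g213, g223, g233, g300, g301, g302, g311, g312, g322, g323, r01, s0102]
  try ring

theorem Fz02 (e : ℝ) (y : Fin 6 → ℝ) : Fc e 0 2 0 y = r02 e (y 0) (y 1) (y 2) (y 3) (y 4) (y 5) := by
  rw [Fc_zero]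
  simp [Fin.sum_univ_four, w, tau, pr1, pr2, St, Gt, g000, g001, g002, g003, g011, g012, g013, g100, g101, g102, g103, g111, g112, g113, g200, g201, g203, g211, g213, g223, g233, g300, g301, g302, g311, g312, g322, g323, r02, s0103]
  try ring

theorem Fz03 (e : ℝ) (y : Fin 6 → ℝ) : Fc e 0 3 0 y = r03 e (y 0) (y 1) (y 2) (y 3) (y 4) (y 5) := by
  rw [Fc_zero]
  simp [Fin.sum_univ_four, w, tau, pr1, pr2, St, Gt, g000, g001, g002, g003, g011, g012, g013, g100, g101, g102, g103, g111, g112, g113, g200, g201, g203, g211, g213, g223, g233, g300, g301, g302, g311, g312, g322, g323, r03, s0112]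
  try ring

theorem Fz04 (e : ℝ) (y : Fin 6 → ℝ) : Fc e 0 4 0 y = r04 e (y 0) (y 1) (y 2) (y 3) (y 4) (y 5) := by
  rw [Fc_zero]
  simp [Fin.sum_univ_four, w, tau, pr1, pr2, St, Gt, g000, g001, g002, g003, g011, g012, g013, g100, g101, g102, g103, g111, g112, g113, g200, g201, g203, g211, g213, g223, g233, g300, g301, g302, g311, g312, g322, g323, r04, s0113]
  try ring

theorem Fz05 (e : ℝ) (y : Fin 6 → ℝ) : Fc e 0 5 0 y = r05 e (y 0) (y 1) (y 2) (y 3) (y 4) (y 5) := by
  rw [Fc_zero]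
  simp [Fin.sum_univ_four, w, tau, pr1, pr2, St, Gt, g000, g001, g002, g003, g011, g012, g013, g100, g101, g102, g103, g111, g112, g113, g200, g201, g203, g211, g213, g223, g233, g300, g301, g302, g311, g312, g322, g323, r05, s0123]
  try ring

theorem Fz10 (e : ℝ) (y : Fin 6 → ℝ) : Fc e 1 0 0 y = r10 e (y 0) (y 1) (y 2) (y 3) (y 4) (y 5) := by
  rw [Fc_zero]
  simp [Fin.sum_univ_four, w, tau, pr1, pr2, St, Gt, g000, g001, g002, g003, g011, g012, g013, g100, g101, g102, g103, g111, g112, g113, g200, g201, g203, g211, g213, g223, g233, g300, g301, g302, g311, g312, g322, g323, r10, s0201]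
  try ring

theorem Fz11 (e : ℝ) (y : Fin 6 → ℝ) : Fc e 1 1 0 y = r11 e (y 0) (y 1) (y 2) (y 3) (y 4) (y 5) := by
  rw [Fc_zero]
  simp [Fin.sum_univ_four, w, tau, pr1, pr2, St, Gt, g000, g001, g002, g003, g011, g012, g013, g100, g101, g102, g103, g111, g112, g113, g200, g201, g203, g211, g213, g223, g233, g300, g301, g302, g311, g312, g322, g323, r11, s0202]
  try ring

theorem Fz12 (e : ℝ) (y : Fin 6 → ℝ) : Fc e 1 2 0 y = r12 e (y 0) (y 1) (y 2) (y 3) (y 4) (y 5) := by
  rw [Fc_zero]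
  simp [Fin.sum_univ_four, w, tau, pr1, pr2, St, Gt, g000, g001, g002, g003, g011, g012, g013, g100, g101, g102, g103, g111, g112, g113, g200, g201, g203, g211, g213, g223, g233, g300, g301, g302, g311, g312, g322, g323, r12, s0203]
  try ring

theorem Fz13 (e : ℝ) (y : Fin 6 → ℝ) : Fc e 1 3 0 y = r13 e (y 0) (y 1) (y 2) (y 3) (y 4) (y 5) := by
  rw [Fc_zero]
  simp [Fin.sum_univ_four, w, tau, pr1, pr2, St, Gt, g000, g001, g002, g003, g011, g012, g013, g100, g101, g102, g103, g111, g112, g113, g200, g201, g203, g211, g213, g223, g233, g300, g301, g302, g311, g312, g322, g323, r13, s0212]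
  try ring

theorem Fz14 (e : ℝ) (y : Fin 6 → ℝ) : Fc e 1 4 0 y = r14 e (y 0) (y 1) (y 2) (y 3) (y 4) (y 5) := by
  rw [Fc_zero]
  simp [Fin.sum_univ_four, w, tau, pr1, pr2, St, Gt, g000, g001, g002, g003, g011, g012, g013, g100, g101, g102, g103, g111, g112, g113, g200, g201, g203, g211, g213, g223, g233, g300, g301, g302, g311, g312, g322, g323, r14, s0213]
  try ring

theorem Fz15 (e : ℝ) (y : Fin 6 → ℝ) : Fc e 1 5 0 y = 0 := by
  rw [Fc_zero]
  simp [Fin.sum_univ_four, w, tau, pr1, pr2, St, Gt, g000, g001, g002, g003, g011, g012, g013, g100, g101, g102, g103, g111, g112, g113, g200, g201, g203, g211, g213, g223, g233, g300, g301, g302, g311, g312, g322, g323]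
  try ring

theorem Fz20 (e : ℝ) (y : Fin 6 → ℝ) : Fc e 2 0 0 y = r20 e (y 0) (y 1) (y 2) (y 3) (y 4) (y 5) := by
  rw [Fc_zero]
  simp [Fin.sum_univ_four, w, tau, pr1, pr2, St, Gt, g000, g001, g002, g003, g011, g012, g013, g100, g101, g102, g103, g111, g112, g113, g200, g201, g203, g211, g213, g223, g233, g300, g301, g302, g311, g312, g322, g323, r20, s0301]
  try ring

theorem Fz21 (e : ℝ) (y : Fin 6 → ℝ) : Fc e 2 1 0 y = r21 e (y 0) (y 1) (y 2) (y 3) (y 4) (y 5) := by
  rw [Fc_zero]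
  simp [Fin.sum_univ_four, w, tau, pr1, pr2, St, Gt, g000, g001, g002, g003, g011, g012, g013, g100, g101, g102, g103, g111, g112, g113, g200, g201, g203, g211, g213, g223, g233, g300, g301, g302, g311, g312, g322, g323, r21, s0302]
  try ring

theorem Fz22 (e : ℝ) (y : Fin 6 → ℝ) : Fc e 2 2 0 y = r22 e (y 0) (y 1) (y 2) (y 3) (y 4) (y 5) := by
  rw [Fc_zero]
  simp [Fin.sum_univ_four, w, tau, pr1, pr2, St, Gt, g000, g001, g002, g003, g011, g012, g013, g100, g101, g102, g103, g111, g112, g113, g200, g201, g203, g211, g213, g223, g233, g300, g301, g302, g311, g312, g322, g323, r22, s0303]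
  try ring

theorem Fz23 (e : ℝ) (y : Fin 6 → ℝ) : Fc e 2 3 0 y = r23 e (y 0) (y 1) (y 2) (y 3) (y 4) (y 5) := by
  rw [Fc_zero]
  simp [Fin.sum_univ_four, w, tau, pr1, pr2, St, Gt, g000, g001, g002, g003, g011, g012, g013, g100, g101, g102, g103, g111, g112, g113, g200, g201, g203, g211, g213, g223, g233, g300, g301, g302, g311, g312, g322, g323, r23, s0312]
  try ring

theorem Fz24 (e : ℝ) (y : Fin 6 → ℝ) : Fc e 2 4 0 y = r24 e (y 0) (y 1) (y 2) (y 3) (y 4) (y 5) := by
  rw [Fc_zero]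
  simp [Fin.sum_univ_four, w, tau, pr1, pr2, St, Gt, g000, g001, g002, g003, g011, g012, g013, g100, g101, g102, g103, g111, g112, g113, g200, g201, g203, g211, g213, g223, g233, g300, g301, g302, g311, g312, g322, g323, r24, s0313]
  try ring

theorem Fz25 (e : ℝ) (y : Fin 6 → ℝ) : Fc e 2 5 0 y = 0 := by
  rw [Fc_zero]
  simp [Fin.sum_univ_four, w, tau, pr1, pr2, St, Gt, g000, g001, g002, g003, g011, g012, g013, g100, g101, g102, g103, g111, g112, g113, g200, g201, g203, g211, g213, g223, g233, g300, g301, g302, g311, g312, g322, g323]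
  try ring

theorem Fz30 (e : ℝ) (y : Fin 6 → ℝ) : Fc e 3 0 0 y = r30 e (y 0) (y 1) (y 2) (y 3) (y 4) (y 5) := by
  rw [Fc_zero]
  simp [Fin.sum_univ_four, w, tau, pr1, pr2, St, Gt, g000, g001, g002, g003, g011, g012, g013, g100, g101, g102, g103, g111, g112, g113, g200, g201, g203, g211, g213, g223, g233, g300, g301, g302, g311, g312, g322, g323, r30, s1201]
  try ring

theorem Fz31 (e : ℝ) (y : Fin 6 → ℝ) : Fc e 3 1 0 y = r31 e (y 0) (y 1) (y 2) (y 3) (y 4) (y 5) := by
  rw [Fc_zero]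
  simp [Fin.sum_univ_four, w, tau, pr1, pr2, St, Gt, g000, g001, g002, g003, g011, g012, g013, g100, g101, g102, g103, g111, g112, g113, g200, g201, g203, g211, g213, g223, g233, g300, g301, g302, g311, g312, g322, g323, r31, s1202]
  try ring

theorem Fz32 (e : ℝ) (y : Fin 6 → ℝ) : Fc e 3 2 0 y = r32 e (y 0) (y 1) (y 2) (y 3) (y 4) (y 5) := by
  rw [Fc_zero]
  simp [Fin.sum_univ_four, w, tau, pr1, pr2, St, Gt, g000, g001, g002, g003, g011, g012, g013, g100, g101, g102, g103, g111, g112, g113, g200, g201, g203, g211, g213, g223, g233, g300, g301, g302, g311, g312, g322, g323, r32, s1203]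
  try ring

theorem Fz33 (e : ℝ) (y : Fin 6 → ℝ) : Fc e 3 3 0 y = r33 e (y 0) (y 1) (y 2) (y 3) (y 4) (y 5) := by
  rw [Fc_zero]
  simp [Fin.sum_univ_four, w, tau, pr1, pr2, St, Gt, g000, g001, g002, g003, g011, g012, g013, g100, g101, g102, g103, g111, g112, g113, g200, g201, g203, g211, g213, g223, g233, g300, g301, g302, g311, g312, g322, g323, r33, s1212]
  try ring

theorem Fz34 (e : ℝ) (y : Fin 6 → ℝ) : Fc e 3 4 0 y = r34 e (y 0) (y 1) (y 2) (y 3) (y 4) (y 5) := by
  rw [Fc_zero]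
  simp [Fin.sum_univ_four, w, tau, pr1, pr2, St, Gt, g000, g001, g002, g003, g011, g012, g013, g100, g101, g102, g103, g111, g112, g113, g200, g201, g203, g211, g213, g223, g233, g300, g301, g302, g311, g312, g322, g323, r34, s1213]
  try ring

theorem Fz35 (e : ℝ) (y : Fin 6 → ℝ) : Fc e 3 5 0 y = 0 := by
  rw [Fc_zero]
  simp [Fin.sum_univ_four, w, tau, pr1, pr2, St, Gt, g000, g001, g002, g003, g011, g012, g013, g100, g101, g102, g103, g111, g112, g113, g200, g201, g203, g211, g213, g223, g233, g300, g301, g302, g311, g312, g322, g323]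
  try ring

theorem Fz40 (e : ℝ) (y : Fin 6 → ℝ) : Fc e 4 0 0 y = r40 e (y 0) (y 1) (y 2) (y 3) (y 4) (y 5) := by
  rw [Fc_zero]
  simp [Fin.sum_univ_four, w, tau, pr1, pr2, St, Gt, g000, g001, g002, g003, g011, g012, g013, g100, g101, g102, g103, g111, g112, g113, g200, g201, g203, g211, g213, g223, g233, g300, g301, g302, g311, g312, g322, g323, r40, s1301]
  try ring

theorem Fz41 (e : ℝ) (y : Fin 6 → ℝ) : Fc e 4 1 0 y = r41 e (y 0) (y 1) (y 2) (y 3) (y 4) (y 5) := by
  rw [Fc_zero]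
  simp [Fin.sum_univ_four, w, tau, pr1, pr2, St, Gt, g000, g001, g002, g003, g011, g012, g013, g100, g101, g102, g103, g111, g112, g113, g200, g201, g203, g211, g213, g223, g233, g300, g301, g302, g311, g312, g322, g323, r41, s1302]
  try ring

theorem Fz42 (e : ℝ) (y : Fin 6 → ℝ) : Fc e 4 2 0 y = r42 e (y 0) (y 1) (y 2) (y 3) (y 4) (y 5) := by
  rw [Fc_zero]
  simp [Fin.sum_univ_four, w, tau, pr1, pr2, St, Gt, g000, g001, g002, g003, g011, g012, g013, g100, g101, g102, g103, g111, g112, g113, g200, g201, g203, g211, g213, g223, g233, g300, g301, g302, g311, g312, g322, g323, r42, s1303]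
  try ring

theorem Fz43 (e : ℝ) (y : Fin 6 → ℝ) : Fc e 4 3 0 y = r43 e (y 0) (y 1) (y 2) (y 3) (y 4) (y 5) := by
  rw [Fc_zero]
  simp [Fin.sum_univ_four, w, tau, pr1, pr2, St, Gt, g000, g001, g002, g003, g011, g012, g013, g100, g101, g102, g103, g111, g112, g113, g200, g201, g203, g211, g213, g223, g233, g300, g301, g302, g311, g312, g322, g323, r43, s1312]
  try ring

theorem Fz44 (e : ℝ) (y : Fin 6 → ℝ) : Fc e 4 4 0 y = r44 e (y 0) (y 1) (y 2) (y 3) (y 4) (y 5) := by
  rw [Fc_zero]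
  simp [Fin.sum_univ_four, w, tau, pr1, pr2, St, Gt, g000, g001, g002, g003, g011, g012, g013, g100, g101, g102, g103, g111, g112, g113, g200, g201, g203, g211, g213, g223, g233, g300, g301, g302, g311, g312, g322, g323, r44, s1313]
  try ring

theorem Fz45 (e : ℝ) (y : Fin 6 → ℝ) : Fc e 4 5 0 y = 0 := by
  rw [Fc_zero]
  simp [Fin.sum_univ_four, w, tau, pr1, pr2, St, Gt, g000, g001, g002, g003, g011, g012, g013, g100, g101, g102, g103, g111, g112, g113, g200, g201, g203, g211, g213, g223, g233, g300, g301, g302, g311, g312, g322, g323]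
  try ring

theorem Fz50 (e : ℝ) (y : Fin 6 → ℝ) : Fc e 5 0 0 y = r50 e (y 0) (y 1) (y 2) (y 3) (y 4) (y 5) := by
  rw [Fc_zero]
  simp [Fin.sum_univ_four, w, tau, pr1, pr2, St, Gt, g000, g001, g002, g003, g011, g012, g013, g100, g101, g102, g103, g111, g112, g113, g200, g201, g203, g211, g213, g223, g233, g300, g301, g302, g311, g312, g322, g323, r50, s2301]
  try ring

theorem Fz51 (e : ℝ) (y : Fin 6 → ℝ) : Fc e 5 1 0 y = 0 := by
  rw [Fc_zero]
  simp [Fin.sum_univ_four, w, tau, pr1, pr2, St, Gt, g000, g001, g002, g003, g011, g012, g013, g100, g101, g102, g103, g111, g112, g113, g200, g201, g203, g211, g213, g223, g233, g300, g301, g302, g311, g312, g322, g323]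
  try ring

theorem Fz52 (e : ℝ) (y : Fin 6 → ℝ) : Fc e 5 2 0 y = 0 := by
  rw [Fc_zero]
  simp [Fin.sum_univ_four, w, tau, pr1, pr2, St, Gt, g000, g001, g002, g003, g011, g012, g013, g100, g101, g102, g103, g111, g112, g113, g200, g201, g203, g211, g213, g223, g233, g300, g301, g302, g311, g312, g322, g323]
  try ring

theorem Fz53 (e : ℝ) (y : Fin 6 → ℝ) : Fc e 5 3 0 y = 0 := by
  rw [Fc_zero]
  simp [Fin.sum_univ_four, w, tau, pr1, pr2, St, Gt, g000, g001, g002, g003, g011, g012, g013, g100, g101, g102, g103, g111, g112, g113, g200, g201, g203, g211, g213, g223, g233, g300, g301, g302, g311, g312, g322, g323]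
  try ring

theorem Fz54 (e : ℝ) (y : Fin 6 → ℝ) : Fc e 5 4 0 y = 0 := by
  rw [Fc_zero]
  simp [Fin.sum_univ_four, w, tau, pr1, pr2, St, Gt, g000, g001, g002, g003, g011, g012, g013, g100, g101, g102, g103, g111, g112, g113, g200, g201, g203, g211, g213, g223, g233, g300, g301, g302, g311, g312, g322, g323]
  try ring

theorem Fz55 (e : ℝ) (y : Fin 6 → ℝ) : Fc e 5 5 0 y = r55 e (y 0) (y 1) (y 2) (y 3) (y 4) (y 5) := by
  rw [Fc_zero]
  simp [Fin.sum_univ_four, w, tau, pr1, pr2, St, Gt, g000, g001, g002, g003, g011, g012, g013, g100, g101, g102, g103, g111, g112, g113, g200, g201, g203, g211, g213, g223, g233, g300, g301, g302, g311, g312, g322, g323, r55, s2323]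
  try ring

end Pool.Agent.W541
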